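import Pool.Agent.Work.MP_6ac3f6_an.Up1

/-!
# The lemma on the logarithmic derivative, finite form
-/

namespace Pool.Agent.Work.MP_6ac3f6_an

open Complex Metric Set Filter Topology Real MeasureTheory ComplexConjugate

/-- The order as a real number. -/
noncomputable def od (a : ℂ → ℂ) (u : ℂ) : ℝ := ((meromorphicOrderAt a u).untop₀ : ℤ)

lemma int_wt {g : ℂ → ℂ} {r : ℝ} (hg : MeromorphicOn g (sphere 0 |r|)) (c : ℝ) :
    CircleIntegrable (fun z => log⁺ (c * ‖g z‖)) 0 r := by
  have : MeromorphicOn (fun z : ℂ => (c : ℂ) * g z) (sphere 0 |r|) := fun z hz => by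
    have := hg z hz
    fun_prop
  convert this.circleIntegrable_posLog_norm using 2 with z
  rw [norm_mul, Complex.norm_real, Real.norm_eq_abs, ← posLog_abs, abs_mul, abs_norm]

lemma logDeriv_cf {R : ℝ} {u z : ℂ} (hu : ‖u‖ < R) (hz : ‖z‖ ≤ R) (h : z ≠ u) :
    logDeriv (canonicalFactor R u) z = -bk R u z := by
  have n1 := pk_ne hu hz
  have n2 : z - u ≠ 0 := sub_ne_zero.2 h
  have n3 : (R : ℂ) ≠ 0 := by exact_mod_cast ((norm_nonneg u).trans_lt hu).ne'
  have d1 : HasDerivAt (fun z : ℂ => (R : ℂ) ^ 2 - conj u * z) (-conj u) z := by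
    simpa using ((hasDerivAt_id z).const_mul (conj u)).const_sub ((R : ℂ) ^ 2)
  have d2 : HasDerivAt (fun z : ℂ => (R : ℂ) * (z - u)) R z := by
    simpa using ((hasDerivAt_id z).sub_const u).const_mul (R : ℂ)
  rw [canonicalFactor_def, logDeriv_div (f := fun z : ℂ => (R : ℂ) ^ 2 - conj u * z)
    (g := fun z : ℂ => (R : ℂ) * (z - u)) z n1 (mul_ne_zero n3 n2) d1.differentiableAt
    d2.differentiableAt, logDeriv_apply, logDeriv_apply, d1.deriv, d2.deriv, bk]
  field_simp
  ring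

lemma decomp {a : ℂ → ℂ} {R : ℝ} (ha : AnalyticOnNhd ℂ a (closedBall 0 R))
    (hne : ∀ u ∈ closedBall (0 : ℂ) R, meromorphicOrderAt a u ≠ ⊤)
    (hs : ∀ z ∈ sphere (0 : ℂ) R, a z ≠ 0) :
    ∃ (s : Finset ℂ) (g : ℂ → ℂ), (∀ u ∈ s, ‖u‖ < R ∧ 1 ≤ od a u) ∧
      AnalyticOnNhd ℂ g (closedBall 0 R) ∧ (∀ z ∈ closedBall (0 : ℂ) R, g z ≠ 0) ∧
      (∀ᶠ z in codiscreteWithin (sphere (0 : ℂ) R), ‖a z‖ = ‖g z‖) ∧
      ∀ᶠ z in codiscreteWithin (ball (0 : ℂ) R), z ∉ s ∧
        logDeriv a z = ∑ u ∈ s, (od a u : ℂ) * bk R u z + logDeriv g z := by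
  obtain ⟨g, D⟩ := ha.meromorphicOn.exists_ecanonicalDecomp fun u => hne u u.2
  have h0 : MeromorphicOn.divisor a (sphere 0 R) = 0 := by
    ext u
    by_cases hu : u ∈ sphere (0 : ℂ) R
    · have := ha u (sphere_subset_closedBall hu)
      rw [MeromorphicOn.divisor_apply (ha.mono sphere_subset_closedBall).meromorphicOn hu,
        this.meromorphicOrderAt_eq, this.analyticOrderAt_eq_zero.2 (hs u hu)]
      simp
    · exact Function.locallyFinsuppWithin.apply_eq_zero_of_notMem _ hu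
  have hb := ha.mono ball_subset_closedBall
  have hfin := ha.meromorphicOn.divisor_ball_support_finite
  set m := MeromorphicOn.divisor a (ball 0 R) with hm
  have hmem : ∀ u ∈ hfin.toFinset, u ∈ ball (0 : ℂ) R := fun u hu =>
    m.supportWithinDomain (hfin.mem_toFinset.1 hu)
  have hod : ∀ u ∈ hfin.toFinset, od a u = m u := fun u hu => by
    rw [hm, MeromorphicOn.divisor_apply hb.meromorphicOn (hmem u hu), od]
  have e : a =ᶠ[codiscreteWithin (closedBall 0 R)]
      fun z => (∏ u ∈ hfin.toFinset, canonicalFactor R u z ^ (-m u)) * g z := by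
    have := D.eventuallyEq
    rw [h0, finprod_eq_prod_of_mulSupport_subset (s := hfin.toFinset) _ (by
      intro u hu
      rw [Finite.coe_toFinset]
      by_contra h
      rw [Function.notMem_support] at h
      exact hu (by simp [← hm, h]))] at this
    filter_upwards [this] with z hz
    simpa using hz
  refine ⟨hfin.toFinset, g, fun u hu => ⟨mem_ball_zero_iff.1 (hmem u hu), ?_⟩, D.analyticOnNhd,
    D.ne_zero, ?_, ?_⟩
  · have h1 : 0 ≤ m u := MeromorphicOn.AnalyticOnNhd.divisor_nonneg hb u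
    have h2 : m u ≠ 0 := hfin.mem_toFinset.1 hu
    rw [hod u hu]
    exact_mod_cast (show 1 ≤ m u by omega)
  · filter_upwards [e.filter_mono (codiscreteWithin_mono sphere_subset_closedBall),
      self_mem_codiscreteWithin _] with z hz hz'
    rw [hz, norm_mul, norm_prod, Finset.prod_eq_one, one_mul]
    intro u hu
    rw [norm_zpow, norm_canonicalFactor_eval_circle_eq_one (hmem u hu) hz', one_zpow]
  · filter_upwards [logDeriv_congr_codiscreteWithin isOpen_ball
      (e.filter_mono (codiscreteWithin_mono ball_subset_closedBall)), self_mem_codiscreteWithin _,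
      compl_finite_mem_codiscreteWithin hfin.toFinset.finite_toSet] with z hz hz' hz''
    have hzc := ball_subset_closedBall hz'
    have ne : ∀ u ∈ hfin.toFinset, z ≠ u := fun u hu h => hz'' (h ▸ hu)
    have n1 : ∀ u ∈ hfin.toFinset, canonicalFactor R u z ≠ 0 := fun u hu =>
      canonicalFactor_ne_zero (hmem u hu) hzc (ne u hu)
    have d1 : ∀ u ∈ hfin.toFinset, DifferentiableAt ℂ (canonicalFactor R u) z := fun u hu =>
      (analyticOnNhd_canonicalFactor R u z (ne u hu)).differentiableAt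
    have d2 : ∀ u ∈ hfin.toFinset,
        DifferentiableAt ℂ (fun z => canonicalFactor R u z ^ (-m u)) z := fun u hu =>
      (d1 u hu).zpow (Or.inl (n1 u hu))
    refine ⟨hz'', ?_⟩
    rw [hz, logDeriv_mul z (Finset.prod_ne_zero_iff.2 fun u hu => zpow_ne_zero _ (n1 u hu))
      (D.ne_zero z hzc) (DifferentiableAt.fun_finsetProd d2)
      (D.analyticOnNhd z hzc).differentiableAt,
      logDeriv_prod (f := fun u z => canonicalFactor R u z ^ (-m u)) (x := z)
        (fun u hu => zpow_ne_zero _ (n1 u hu)) d2]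
    congr 1
    refine Finset.sum_congr rfl fun u hu => ?_
    rw [logDeriv_fun_zpow (d1 u hu), logDeriv_cf (mem_ball_zero_iff.1 (hmem u hu))
      (mem_closedBall_zero_iff.1 hzc) (ne u hu), hod u hu]
    push_cast
    ring

lemma posLog_le_self {x : ℝ} (hx : 0 ≤ x) : log⁺ x ≤ x := by
  rw [posLog_apply]
  exact max_le hx (Real.log_le_self hx)

lemma le_exp_posLog (x : ℝ) : x ≤ Real.exp (log⁺ x) := by
  rcases le_or_gt x 0 with h | h
  · exact h.trans (Real.exp_pos _).le
  · conv_lhs => rw [← Real.exp_log h]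
    exact Real.exp_le_exp.2 (le_max_right _ _)

lemma ld_core {a : ℂ → ℂ} {r R ε : ℝ} (h1 : 1 / 2 ≤ r) (h2 : r < R) (h3 : R ≤ 1) (hε : 0 < ε)
    (hε' : ε ≤ 1 / 2) (ha : AnalyticOnNhd ℂ a (closedBall 0 R))
    (hne : ∀ u ∈ closedBall (0 : ℂ) R, meromorphicOrderAt a u ≠ ⊤)
    (hs : ∀ z ∈ sphere (0 : ℂ) R, a z ≠ 0) :
    ∃ s : Finset ℂ, (∀ u ∈ s, ‖u‖ < R) ∧
      circleAverage (fun z => log⁺ ((R - r) * ‖logDeriv a z‖)) 0 r ≤
        log⁺ (ε⁻¹ * (1 + 2 / ε)) + ε * (2 * circleAverage (fun z => |Real.log ‖a z‖|) 0 R +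
          12 * ∑ u ∈ s, od a u * (R - ‖u‖)) := by
  have hr : 0 < r := by linarith
  have hR : 0 < R := by linarith
  obtain ⟨s, g, hm, hg, hg0, e1, e2⟩ := decomp ha hne hs
  obtain ⟨Φ, hΦ, hΦ0, hΦb⟩ := zero_free hR hg hg0
  have sub : closedBall (0 : ℂ) |r| ⊆ ball 0 R := by
    rw [abs_of_pos hr]; exact closedBall_subset_ball h2
  have sub' := sphere_subset_closedBall.trans sub
  have hh : InnerProductSpace.HarmonicOnNhd (fun z => (Φ z).re) (closedBall 0 |r|) :=
    fun z hz => (hΦ z (sub hz)).harmonicAt_re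
  have i1 : CircleIntegrable (fun z => (Φ z).re) 0 r :=
    (hh.continuousOn.mono sphere_subset_closedBall).circleIntegrable'
  have a1 : circleAverage (fun z => (Φ z).re) 0 r =
      circleAverage (fun z => |Real.log ‖a z‖|) 0 R := by
    rw [hh.circleAverage_eq, hΦ0]
    refine circleAverage_congr_codiscreteWithin ?_ hR.ne'
    rw [abs_of_pos hR]
    filter_upwards [e1] with z hz
    rw [hz]
  set ρ := ε * (R - r) with hρ
  have hρ0 : 0 < ρ := mul_pos hε (by linarith)
  have i2 : ∀ u ∈ s, CircleIntegrable (fun z => od a u * (4 * (R - ‖u‖) * pk R u z)) 0 r :=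
    fun u hu => ((avg_pk (hm u hu).1 hr h2.le).1.const_smul (a := 4 * (R - ‖u‖))).const_smul
      (a := od a u)
  have i3 : ∀ u ∈ s, CircleIntegrable (fun z => od a u * log⁺ (ρ / ‖z - u‖)) 0 r :=
    fun u _ => (int_near ρ r u).const_smul (a := od a u)
  have i4 : CircleIntegrable (fun z => 2 * (Φ z).re +
      ∑ u ∈ s, od a u * (4 * (R - ‖u‖) * pk R u z)) 0 r :=
    (i1.const_smul (a := (2 : ℝ))).add (CircleIntegrable.fun_sum s i2)
  have i5 : CircleIntegrable (fun z => ε * (2 * (Φ z).re +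
      ∑ u ∈ s, od a u * (4 * (R - ‖u‖) * pk R u z))) 0 r := i4.const_smul (a := ε)
  have i6 := CircleIntegrable.fun_sum s i3
  have i7 : CircleIntegrable (fun z => ε * (2 * (Φ z).re +
      ∑ u ∈ s, od a u * (4 * (R - ‖u‖) * pk R u z)) +
        ∑ u ∈ s, od a u * log⁺ (ρ / ‖z - u‖)) 0 r := i5.add i6
  refine ⟨s, fun u hu => (hm u hu).1, (avg_mono_ae hr.ne' (int_wt
    ((ha.mono (sub'.trans ball_subset_closedBall)).meromorphicOn.logDeriv) _)
    ((circleIntegrable_const (log⁺ (ε⁻¹ * (1 + 2 / ε))) 0 r).add i7) ?_).trans ?_⟩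
  · filter_upwards [e2.filter_mono (codiscreteWithin_mono sub'), self_mem_codiscreteWithin _]
      with z ⟨hz, e⟩ hz'
    have hb := hΦb z (sub' hz')
    rw [abs_of_pos hr, mem_sphere_zero_iff_norm] at hz'
    rw [hz'] at hb
    have b0 : (R - r) * ‖logDeriv g z‖ ≤ 2 * (Φ z).re := by
      have : 0 ≤ (R - r) * ‖logDeriv g z‖ := mul_nonneg (by linarith) (norm_nonneg _)
      refine le_of_mul_le_mul_left ?_ hR
      nlinarith
    have b1 : 0 ≤ 2 * (Φ z).re := (mul_nonneg (by linarith) (norm_nonneg _)).trans b0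
    set Z := ∑ u ∈ s, od a u * log⁺ (ρ / ‖z - u‖) with hZ
    have t0 : ∀ u ∈ s, 0 ≤ od a u * log⁺ (ρ / ‖z - u‖) := fun u hu =>
      mul_nonneg (by linarith [(hm u hu).2]) posLog_nonneg
    have Z0 : 0 ≤ Z := Finset.sum_nonneg t0
    have Z1 : 1 ≤ Real.exp Z := Real.one_le_exp Z0
    have S1 : 1 ≤ (1 + 2 / ε) * Real.exp Z :=
      one_le_mul_of_one_le_of_one_le (le_add_of_nonneg_right (by positivity)) Z1
    have t1 : ∀ u ∈ s, 0 ≤ od a u * (4 * (R - ‖u‖) * pk R u z) := fun u hu =>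
      mul_nonneg (by linarith [(hm u hu).2]) (mul_nonneg (by linarith [(hm u hu).1])
        (pk_nonneg (hm u hu).1 (hz'.trans_le h2.le)))
    have b2 : ∀ u ∈ s, (R - r) * ‖(od a u : ℂ) * bk R u z‖ ≤
        od a u * (4 * (R - ‖u‖) * pk R u z) * ((1 + 2 / ε) * Real.exp Z) := fun u hu => by
      have k1 := bk_le (hm u hu).1 hz' h1 h2 h3 (fun h => hz (h ▸ hu))
      have k0 : 0 ≤ od a u := by linarith [(hm u hu).2]
      have k2 : ρ / ‖z - u‖ ≤ Real.exp Z := (le_exp_posLog _).trans (Real.exp_le_exp.2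
        ((le_mul_of_one_le_left posLog_nonneg (hm u hu).2).trans (Finset.single_le_sum t0 hu)))
      have k3 : 1 + 2 * ((R - r) / ‖z - u‖) ≤ (1 + 2 / ε) * Real.exp Z := by
        rw [show 2 * ((R - r) / ‖z - u‖) = 2 / ε * (ρ / ‖z - u‖) by rw [hρ]; field_simp, add_mul,
          one_mul]
        gcongr
      rw [norm_mul, Complex.norm_real, Real.norm_of_nonneg k0, mul_left_comm, mul_assoc (od a u)]
      refine mul_le_mul_of_nonneg_left (k1.trans (mul_le_mul_of_nonneg_left k3 ?_)) k0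
      exact mul_nonneg (by linarith [(hm u hu).1]) (pk_nonneg (hm u hu).1 (hz'.trans_le h2.le))
    set Y := 2 * (Φ z).re + ∑ u ∈ s, od a u * (4 * (R - ‖u‖) * pk R u z) with hY
    have Y0 : 0 ≤ Y := add_nonneg b1 (Finset.sum_nonneg t1)
    have b3 : (R - r) * ‖logDeriv a z‖ ≤ (ε⁻¹ * (1 + 2 / ε)) * ((ε * Y) * Real.exp Z) := by
      rw [show (ε⁻¹ * (1 + 2 / ε)) * ((ε * Y) * Real.exp Z) = Y * ((1 + 2 / ε) * Real.exp Z) by
        field_simp, e, hY, add_mul, Finset.sum_mul, add_comm (2 * _ * _)]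
      refine (mul_le_mul_of_nonneg_left ((norm_add_le _ _).trans
        (add_le_add (norm_sum_le _ _) le_rfl)) (by linarith)).trans ?_
      rw [mul_add, Finset.mul_sum]
      exact add_le_add (Finset.sum_le_sum b2) (b0.trans (le_mul_of_one_le_right b1 S1))
    refine (posLog_le_posLog (mul_nonneg (by linarith) (norm_nonneg _)) b3).trans
      (posLog_mul.trans (add_le_add le_rfl (posLog_mul.trans (add_le_add
        (posLog_le_self (by positivity)) (le_of_eq ?_)))))
    rw [posLog_eq_log (by rwa [abs_of_pos (Real.exp_pos _)]), Real.log_exp]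
  · rw [circleAverage_add (circleIntegrable_const _ _ _) i7, circleAverage_const,
      circleAverage_fun_add i5 i6, circleAverage_fun_sum i3]
    have := circleAverage_fun_smul (a := ε) (c := 0) (R := r) (f := fun z => 2 * (Φ z).re +
      ∑ u ∈ s, od a u * (4 * (R - ‖u‖) * pk R u z))
    simp only [smul_eq_mul] at this
    rw [this, circleAverage_fun_add (f₁ := fun z => 2 * (Φ z).re) (i1.const_smul (a := (2 : ℝ)))
      (CircleIntegrable.fun_sum s i2), circleAverage_fun_sum i2]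
    have m1 : ∀ (c : ℝ) (F : ℂ → ℝ), circleAverage (fun z => c * F z) 0 r =
        c * circleAverage F 0 r := fun c F => circleAverage_fun_smul (a := c)
    simp only [m1]
    rw [a1, Finset.sum_congr rfl fun u hu => by rw [(avg_pk (hm u hu).1 hr h2.le).2]]
    have k : ∑ u ∈ s, od a u * circleAverage (fun z => log⁺ (ρ / ‖z - u‖)) 0 r ≤
        ∑ u ∈ s, ε * (8 * (od a u * (R - ‖u‖))) := by
      refine Finset.sum_le_sum fun u hu => ?_
      have k0 : 0 ≤ od a u := by linarith [(hm u hu).2]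
      have k1 := (hm u hu).1
      rw [show ε * (8 * (od a u * (R - ‖u‖))) = od a u * (8 * ε * (R - ‖u‖)) by ring]
      refine mul_le_mul_of_nonneg_left ((avg_near hρ0 hr u).trans ?_) k0
      split_ifs with h
      · have k2 := (abs_lt.1 h).2
        have k3 : ρ ≤ (R - r) / 2 := by rw [hρ]; nlinarith
        rw [div_le_iff₀ hr, hρ]
        have k4 : 2 * (R - r) ≤ 8 * (R - ‖u‖) * r := by nlinarith
        nlinarith
      · exact mul_nonneg (by positivity) (by linarith)
    have k' : ∑ u ∈ s, od a u * (4 * (R - ‖u‖) * 1) = 4 * ∑ u ∈ s, od a u * (R - ‖u‖) := by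
      rw [Finset.mul_sum]
      exact Finset.sum_congr rfl fun u _ => by ring
    rw [← Finset.mul_sum, ← Finset.mul_sum] at k
    rw [k']
    linarith

/-- Jensen's formula as a lower bound. -/
lemma jensen_lower {H : ℂ → ℂ} (hH : MeromorphicOn H (ball 0 1))
    (h0 : ∀ z ∈ ball (0 : ℂ) 1, 0 ≤ meromorphicOrderAt H z) :
    ∃ C : ℝ, ∀ R, 1 / 2 ≤ R → R < 1 → ∀ s : Finset ℂ, (∀ u ∈ s, ‖u‖ < R) →
      ∑ u ∈ s, od H u * (R - ‖u‖) ≤ circleAverage (fun z => Real.log ‖H z‖) 0 R + C := by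
  classical
  have od0 : ∀ z ∈ ball (0 : ℂ) 1, 0 ≤ od H z := fun z hz => by
    have := WithTop.untop₀_nonneg.2 (h0 z hz)
    unfold od
    exact_mod_cast this
  refine ⟨2 * od H 0 - Real.log ‖meromorphicTrailingCoeffAt H 0‖, fun R h1 h2 s hs => ?_⟩
  have hR : 0 < R := by linarith
  have sub : closedBall (0 : ℂ) |R| ⊆ ball 0 1 := by
    rw [abs_of_pos hR]; exact closedBall_subset_ball h2
  have hH' := hH.mono_set sub
  rw [hH'.circleAverage_log_norm hR.ne']
  set D := MeromorphicOn.divisor H (closedBall (0 : ℂ) |R|) with hD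
  have hfin : (Function.support D).Finite := D.finiteSupport (isCompact_closedBall _ _)
  have hod : ∀ u ∈ closedBall (0 : ℂ) |R|, (D u : ℝ) = od H u := fun u hu => by
    rw [hD, MeromorphicOn.divisor_apply hH' hu, od]
  have mem : ∀ u, ‖u‖ ≤ R → u ∈ closedBall (0 : ℂ) |R| := fun u hu => by
    rwa [abs_of_pos hR, mem_closedBall_zero_iff]
  have z0 := od0 0 (mem_ball_self one_pos)
  have k1 : -od H 0 ≤ D 0 * Real.log R := by
    rw [hod 0 (mem 0 (by simpa using hR.le))]
    have := Real.one_sub_inv_le_log_of_pos hR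
    have : R⁻¹ ≤ 2 := by rw [inv_le_comm₀ hR two_pos]; linarith
    nlinarith
  have pos : ∀ u, 0 ≤ (D u : ℝ) * Real.log (R * ‖0 - u‖⁻¹) := fun u => by
    by_cases hu : u ∈ closedBall (0 : ℂ) |R|
    · rw [hod u hu]
      refine mul_nonneg (od0 u (sub hu)) ?_
      rcases eq_or_ne u 0 with rfl | h
      · simp
      · rw [abs_of_pos hR, mem_closedBall_zero_iff] at hu
        rw [zero_sub, norm_neg, ← div_eq_mul_inv]
        exact Real.log_nonneg ((one_le_div (norm_pos_iff.2 h)).2 hu)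
    · simp [D.apply_eq_zero_of_notMem hu]
  rw [finsum_eq_sum_of_support_subset (s := hfin.toFinset ∪ s) _ (fun u hu => by
    simp only [Finset.coe_union, Finite.coe_toFinset, Function.mem_support, mem_union] at hu ⊢
    exact Or.inl fun h => hu (by simp [h]))]
  have k2 := Finset.sum_le_sum_of_subset_of_nonneg (Finset.subset_union_right (s₁ := hfin.toFinset)
    (s₂ := s)) (fun u _ _ => pos u)
  have k3 : ∑ u ∈ s, od H u * (R - ‖u‖) ≤ ∑ u ∈ s, ((D u : ℝ) * Real.log (R * ‖0 - u‖⁻¹) +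
      if u = 0 then od H 0 else 0) := by
    refine Finset.sum_le_sum fun u hu => ?_
    have m := mem u (hs u hu).le
    split_ifs with h
    · subst h
      simp only [norm_zero, sub_zero, inv_zero, mul_zero, Real.log_zero, zero_add]
      nlinarith
    · rw [add_zero, hod u m, zero_sub, norm_neg]
      refine mul_le_mul_of_nonneg_left ?_ (od0 u (sub m))
      have p := norm_pos_iff.2 h
      have := Real.one_sub_inv_le_log_of_pos (show 0 < R * ‖u‖⁻¹ by positivity)
      rw [mul_inv, inv_inv] at this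
      have k : R - ‖u‖ ≤ 1 - R⁻¹ * ‖u‖ := by
        rw [show 1 - R⁻¹ * ‖u‖ = (R - ‖u‖) / R by field_simp, le_div_iff₀ hR]
        nlinarith [hs u hu]
      linarith
  rw [Finset.sum_add_distrib, Finset.sum_ite_eq'] at k3
  have k4 : (if (0 : ℂ) ∈ s then od H 0 else 0) ≤ od H 0 := by split_ifs <;> linarith
  linarith

end Pool.Agent.Work.MP_6ac3f6_an
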