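import Mathlib

/-!
# The Nevanlinna characteristic in the unit disc
-/

namespace Pool.Agent.Work.MP_6ac3f6_an

open Filter Topology

/-- the multiplicity of `u` as a pole of `f` (zero if `u` is not a pole) -/
noncomputable def poleMult (f : ℂ → ℂ) (u : ℂ) : ℕ := (-(meromorphicOrderAt f u).untop₀).toNat

/-- `n(t,f)`: the number of poles of `f` in the closed disc of radius `t`, with multiplicity -/
noncomputable def nPoles (f : ℂ → ℂ) (t : ℝ) : ℝ :=
  ∑ᶠ u ∈ Metric.closedBall (0 : ℂ) t, (poleMult f u : ℝ)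

/-- the proximity function `m(r,f)` -/
noncomputable def prox (f : ℂ → ℂ) (r : ℝ) : ℝ :=
  (2 * Real.pi)⁻¹ * ∫ θ in (0 : ℝ)..2 * Real.pi,
    max 0 (Real.log ‖f (r * Complex.exp (θ * Complex.I))‖)

/-- the counting function `N(r,f)` -/
noncomputable def counting (f : ℂ → ℂ) (r : ℝ) : ℝ :=
  (∫ t in (0 : ℝ)..r, (nPoles f t - nPoles f 0) / t) + nPoles f 0 * Real.log r

/-- the growth index `α(f)`, the upper limit of `T(r,f) / (-log (1 - r))` as `r` increases to one -/
noncomputable def alpha (f : ℂ → ℂ) : EReal :=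
  limsup (fun r : ℝ => (((prox f r + counting f r) / (-Real.log (1 - r)) : ℝ) : EReal)) (𝓝[<] 1)

/-- the class of functions meromorphic in the unit disc, of finite growth index, with `f ≠ 0` and
`f' ≠ 1` at every point that is not a pole -/
def InClass (f : ℂ → ℂ) : Prop :=
  MeromorphicOn f (Metric.ball 0 1) ∧ alpha f < ⊤ ∧
    ∀ z ∈ Metric.ball (0 : ℂ) 1, 0 ≤ meromorphicOrderAt f z →
      AnalyticAt ℂ f z ∧ f z ≠ 0 ∧ deriv f z ≠ 1

end Pool.Agent.Work.MP_6ac3f6_an
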