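import Pool.Agent.Work.MP_6ac3f6_an.Defs

/-!
# The characteristic of a quotient of holomorphic functions
-/

namespace Pool.Agent.Work.MP_6ac3f6_an

open Complex Metric Set Filter Topology Real MeasureTheory

lemma int_ind {c r : ℝ} (hc : 0 < c) (hcr : c ≤ r) :
    IntervalIntegrable (indicator (Ici c) (fun t : ℝ => 1 / t)) volume 0 r ∧
      ∫ t in (0 : ℝ)..r, indicator (Ici c) (fun t : ℝ => 1 / t) t = Real.log (r / c) := by
  have hr : 0 ≤ r := hc.le.trans hcr
  have h1 : Ioc 0 r ∩ Ici c = Icc c r := by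
    ext t
    simp only [mem_inter_iff, mem_Ioc, mem_Ici, mem_Icc]
    exact ⟨fun h => ⟨h.2, h.1.2⟩, fun h => ⟨⟨hc.trans_le h.1, h.2⟩, h.1⟩⟩
  constructor
  · rw [intervalIntegrable_iff_integrableOn_Ioc_of_le hr, IntegrableOn,
      integrable_indicator_iff measurableSet_Ici, IntegrableOn,
      Measure.restrict_restrict measurableSet_Ici, inter_comm, h1]
    exact ContinuousOn.integrableOn_Icc
      (continuousOn_const.div continuousOn_id (fun t ht => (hc.trans_le ht.1).ne'))
  · rw [intervalIntegral.integral_of_le hr, setIntegral_indicator measurableSet_Ici, h1,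
      integral_Icc_eq_integral_Ioc, ← intervalIntegral.integral_of_le hcr,
      integral_one_div_of_pos hc (hc.trans_le hcr)]

lemma order_quot {y Φ : ℂ → ℂ} {z : ℂ} (hy : AnalyticAt ℂ y z) (hΦ : AnalyticAt ℂ Φ z)
    (hy0 : y z ≠ 0) : meromorphicOrderAt (fun w => y w / Φ w) z = -meromorphicOrderAt Φ z := by
  rw [fun_meromorphicOrderAt_div hy.meromorphicAt hΦ.meromorphicAt, hy.meromorphicOrderAt_eq,
    hy.analyticOrderAt_eq_zero.2 hy0]
  simp

lemma order_ne_top {Φ : ℂ → ℂ} (hΦ : AnalyticOnNhd ℂ Φ (ball 0 1)) (h0 : Φ 0 = 1) {z : ℂ}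
    (hz : z ∈ ball (0 : ℂ) 1) : meromorphicOrderAt Φ z ≠ ⊤ := by
  refine hΦ.meromorphicOn.meromorphicOrderAt_ne_top_of_isPreconnected
    (convex_ball _ _).isPreconnected (mem_ball_self one_pos) hz ?_
  have h := hΦ 0 (mem_ball_self one_pos)
  rw [h.meromorphicOrderAt_eq, h.analyticOrderAt_eq_zero.2 (by simp [h0])]
  simp

lemma counting_eq {y Φ : ℂ → ℂ} (hy : AnalyticOnNhd ℂ y (ball 0 1))
    (hΦ : AnalyticOnNhd ℂ Φ (ball 0 1)) (hy0 : ∀ z ∈ ball (0 : ℂ) 1, y z ≠ 0) (h0 : Φ 0 = 1)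
    {r : ℝ} (hr0 : 0 < r) (hr : r < 1) :
    counting (fun w => y w / Φ w) r = circleAverage (fun z => Real.log ‖Φ z‖) 0 r := by
  classical
  have hsub : closedBall (0 : ℂ) |r| ⊆ ball 0 1 := by
    rw [abs_of_pos hr0]; exact closedBall_subset_ball hr
  have hΦ' : AnalyticOnNhd ℂ Φ (closedBall 0 |r|) := hΦ.mono hsub
  have hΦ0 := hΦ 0 (mem_ball_self one_pos)
  set D := MeromorphicOn.divisor Φ (closedBall (0 : ℂ) |r|) with hD
  have hfin : (Function.support D).Finite := D.finiteSupport (isCompact_closedBall _ _)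
  have hD0 : D 0 = 0 := by
    rw [hD, MeromorphicOn.divisor_apply hΦ'.meromorphicOn (mem_closedBall_self (abs_nonneg r)),
      hΦ0.meromorphicOrderAt_eq, hΦ0.analyticOrderAt_eq_zero.2 (by simp [h0])]
    simp
  have hmult : ∀ u ∈ closedBall (0 : ℂ) |r|, (poleMult (fun w => y w / Φ w) u : ℝ) = D u := by
    intro u hu
    have h1 : 0 ≤ D u := MeromorphicOn.AnalyticOnNhd.divisor_nonneg hΦ' u
    rw [hD, MeromorphicOn.divisor_apply hΦ'.meromorphicOn hu] at h1 ⊢
    unfold poleMult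
    rw [order_quot (hy u (hsub hu)) (hΦ' u hu) (hy0 u (hsub hu)), WithTop.untop₀_neg, neg_neg]
    exact_mod_cast Int.toNat_of_nonneg h1
  have hmem : ∀ u ∈ hfin.toFinset, 0 < ‖u‖ ∧ ‖u‖ ≤ r := by
    intro u hu
    rw [Finite.mem_toFinset] at hu
    refine ⟨norm_pos_iff.2 (fun h => hu (h ▸ hD0)), ?_⟩
    have := D.supportWithinDomain hu
    rwa [mem_closedBall_zero_iff, abs_of_pos hr0] at this
  have hn : ∀ t, t ≤ r → nPoles (fun w => y w / Φ w) t =
      ∑ u ∈ hfin.toFinset, (D u : ℝ) * (if ‖u‖ ≤ t then 1 else 0) := by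
    intro t ht
    unfold nPoles
    rw [finsum_mem_def, finsum_eq_sum_of_support_subset (s := hfin.toFinset)]
    · refine Finset.sum_congr rfl (fun u _ => ?_)
      by_cases h : ‖u‖ ≤ t
      · rw [indicator_of_mem (mem_closedBall_zero_iff.2 h), if_pos h, mul_one,
          hmult u (mem_closedBall_zero_iff.2 (h.trans (ht.trans (le_abs_self r))))]
      · rw [indicator_of_notMem (fun h' => h (mem_closedBall_zero_iff.1 h')), if_neg h, mul_zero]
    · intro u hu
      rw [support_indicator] at hu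
      have h1 := hu.2
      rw [Function.mem_support, hmult u (closedBall_subset_closedBall
        (ht.trans (le_abs_self r)) hu.1)] at h1
      simpa using h1
  have hn0 : nPoles (fun w => y w / Φ w) 0 = 0 := by
    rw [hn 0 hr0.le]
    exact Finset.sum_eq_zero (fun u hu => by rw [if_neg (not_le.2 (hmem u hu).1), mul_zero])
  rw [hΦ'.meromorphicOn.circleAverage_log_norm hr0.ne', ← hD, hD0,
    hΦ0.meromorphicTrailingCoeffAt_of_ne_zero (by simp [h0]), h0,
    finsum_eq_sum_of_support_subset (s := hfin.toFinset) _ (fun u hu => by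
      simp only [Finite.coe_toFinset, Function.mem_support] at hu ⊢
      intro h; exact hu (by simp [h]))]
  unfold counting
  rw [hn0, intervalIntegral.integral_congr (g := fun t => ∑ u ∈ hfin.toFinset,
    (D u : ℝ) * indicator (Ici ‖u‖) (fun t : ℝ => 1 / t) t), intervalIntegral.integral_finsetSum
      (fun u hu => (int_ind (hmem u hu).1 (hmem u hu).2).1.const_mul _)]
  · simp only [zero_mul, add_zero, Int.cast_zero, norm_one, Real.log_one, zero_sub, norm_neg]
    refine Finset.sum_congr rfl (fun u hu => ?_)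
    rw [intervalIntegral.integral_const_mul, (int_ind (hmem u hu).1 (hmem u hu).2).2, div_eq_mul_inv]
  · intro t ht
    rw [uIcc_of_le hr0.le] at ht
    simp only [hn t ht.2, sub_zero, Finset.sum_div]
    refine Finset.sum_congr rfl (fun u _ => ?_)
    by_cases h : ‖u‖ ≤ t
    · rw [if_pos h, indicator_of_mem (show t ∈ Ici ‖u‖ from h), mul_div_assoc]
    · rw [if_neg h, indicator_of_notMem (show t ∉ Ici ‖u‖ from h)]; simp

lemma char_eq {y Φ : ℂ → ℂ} (hy : AnalyticOnNhd ℂ y (ball 0 1))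
    (hΦ : AnalyticOnNhd ℂ Φ (ball 0 1)) (hy0 : ∀ z ∈ ball (0 : ℂ) 1, y z ≠ 0) (h0 : Φ 0 = 1)
    {r : ℝ} (hr0 : 0 < r) (hr : r < 1) :
    CircleIntegrable (fun z => Real.log (max ‖y z‖ ‖Φ z‖)) 0 r ∧
    prox (fun w => y w / Φ w) r + counting (fun w => y w / Φ w) r =
      circleAverage (fun z => Real.log (max ‖y z‖ ‖Φ z‖)) 0 r := by
  have hsub : sphere (0 : ℂ) |r| ⊆ ball 0 1 := by
    rw [abs_of_pos hr0]; exact sphere_subset_ball hr
  have i1 : CircleIntegrable (fun z => Real.log (max ‖y z‖ ‖Φ z‖)) 0 r := by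
    refine ContinuousOn.circleIntegrable' (ContinuousOn.log
      (ContinuousOn.sup ((hy.continuousOn.mono hsub).norm) ((hΦ.continuousOn.mono hsub).norm))
      (fun z hz => ?_))
    exact (lt_max_of_lt_left (norm_pos_iff.2 (hy0 z (hsub hz)))).ne'
  have i2 : CircleIntegrable (fun z => Real.log ‖Φ z‖) 0 r :=
    (hΦ.mono hsub).meromorphicOn.circleIntegrable_log_norm
  refine ⟨i1, ?_⟩
  have h1 : prox (fun w => y w / Φ w) r = circleAverage (fun z => log⁺ ‖y z / Φ z‖) 0 r := by
    simp [prox, circleAverage, circleMap, posLog]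
  have h2 := (hΦ.mono hsub).meromorphicOn.eventually_codiscreteWithin_apply_ne_zero
    (fun z hz => order_ne_top hΦ h0 (hsub hz))
  rw [h1, counting_eq hy hΦ hy0 h0 hr0 hr, circleAverage_congr_codiscreteWithin
    (f₂ := fun z => Real.log (max ‖y z‖ ‖Φ z‖) - Real.log ‖Φ z‖) _ hr0.ne',
    circleAverage_fun_sub i1 i2, sub_add_cancel]
  filter_upwards [h2, self_mem_codiscreteWithin (sphere (0 : ℂ) |r|)] with z hz hz'
  have k1 : 0 < ‖Φ z‖ := norm_pos_iff.2 hz
  rw [posLog_eq_log_max_one (norm_nonneg _), ← Real.log_div (lt_max_of_lt_right k1).ne' k1.ne',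
    norm_div, ← max_div_div_right k1.le, div_self k1.ne', max_comm]

end Pool.Agent.Work.MP_6ac3f6_an
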