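import Mathlib
import Pool.Agent.Work.MP_6ac3f6_an.Nev

-- merged part: Pool.Agent.Work.MP_6ac3f6_an.Series
section
/-!
# A lacunary Lambert series with real part close to its maximum on most of each circle
-/

namespace Pool.Agent.Work.MP_6ac3f6_an

open Complex Metric Set Filter Topology

/-- the building block, with real part one minus the Poisson kernel -/
noncomputable def pb (w : ℂ) : ℂ := -2 * w / (1 - w)

/-- the Poisson kernel -/
noncomputable def Po (w : ℂ) : ℝ := (1 - ‖w‖ ^ 2) / ‖1 - w‖ ^ 2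

/-- the lacunary series -/
noncomputable def S (z : ℂ) : ℂ := ∑' k : ℕ, pb (z ^ 2 ^ k)

/-- the radii -/
noncomputable def rad (n : ℕ) : ℝ := 1 - (1 / 2) ^ n

/-- the sum of the Poisson kernels at the first `n` scales -/
noncomputable def uu (n : ℕ) (z : ℂ) : ℝ := ∑ k ∈ Finset.range n, Po (z ^ 2 ^ k)

lemma rad_lt_one (n : ℕ) : rad n < 1 := by
  have : (0 : ℝ) < (1 / 2) ^ n := by positivity
  unfold rad; linarith only [this]

lemma rad_nonneg (n : ℕ) : 0 ≤ rad n := by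
  have : ((1 : ℝ) / 2) ^ n ≤ 1 := pow_le_one₀ (by norm_num) (by norm_num)
  unfold rad; linarith only [this]

lemma rad_succ (n : ℕ) : rad (n + 1) = rad n + (1 / 2) ^ (n + 1) := by
  unfold rad; ring

lemma one_sub_ne {w : ℂ} (hw : ‖w‖ < 1) : 1 - w ≠ 0 := by
  intro h
  rw [← sub_eq_zero.1 h] at hw
  simp at hw

lemma pb_re {w : ℂ} (hw : ‖w‖ < 1) : (pb w).re = 1 - Po w := by
  have h := one_sub_ne hw
  have h2 : normSq (1 - w) ≠ 0 := by simpa using h
  unfold pb Po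
  rw [Complex.sq_norm, Complex.sq_norm, div_re]
  field_simp
  simp [normSq_apply]
  ring

lemma Po_nonneg {w : ℂ} (hw : ‖w‖ < 1) : 0 ≤ Po w := by
  unfold Po
  have := norm_nonneg w
  exact div_nonneg (by linarith only [hw, this, mul_nonneg_of_nonpos_of_nonpos (le_of_lt (Mathlib.Tactic.Linarith.sub_neg_of_lt hw)) (Mathlib.Tactic.Linarith.sub_nonpos_of_le this)]) (by positivity)

lemma norm_pb_le {w : ℂ} {ρ : ℝ} (hw : ‖w‖ ≤ ρ) (hρ : ρ < 1) : ‖pb w‖ ≤ 2 / (1 - ρ) * ‖w‖ := by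
  unfold pb
  have h1 : 1 - ρ ≤ ‖1 - w‖ := by
    have := norm_sub_norm_le (1 : ℂ) w
    rw [norm_one] at this
    linarith
  rw [norm_div, norm_mul, div_mul_eq_mul_div]
  simp only [norm_neg, Complex.norm_ofNat]
  gcongr

lemma norm_pow_lt {z : ℂ} (hz : ‖z‖ < 1) (k : ℕ) : ‖z ^ 2 ^ k‖ < 1 := by
  rw [norm_pow]; exact pow_lt_one₀ (norm_nonneg _) hz (by positivity)

lemma norm_term_le {z : ℂ} {ρ : ℝ} (hz : ‖z‖ ≤ ρ) (hρ : ρ < 1) (k : ℕ) :
    ‖pb (z ^ 2 ^ k)‖ ≤ 2 / (1 - ρ) * ρ ^ k := by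
  have h0 : 0 ≤ ρ := (norm_nonneg _).trans hz
  have h1 : ‖z ^ 2 ^ k‖ ≤ ρ ^ 2 ^ k := by rw [norm_pow]; gcongr
  have h2 : ρ ^ 2 ^ k ≤ ρ := pow_le_of_le_one h0 hρ.le (by positivity)
  have h3 : ρ ^ 2 ^ k ≤ ρ ^ k := pow_le_pow_of_le_one h0 hρ.le (Nat.lt_two_pow_self).le
  refine (norm_pb_le (h1.trans h2) hρ).trans ?_
  have : 0 < 1 - ρ := by linarith
  gcongr
  exact h1.trans h3

lemma summable_term {z : ℂ} (hz : ‖z‖ < 1) : Summable (fun k : ℕ => pb (z ^ 2 ^ k)) :=
  Summable.of_norm_bounded ((summable_geometric_of_lt_one (norm_nonneg z) hz).mul_left _)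
    (norm_term_le le_rfl hz)

lemma differentiableOn_S : DifferentiableOn ℂ S (ball 0 1) := by
  intro z hz
  obtain ⟨ρ, h1, h2⟩ := exists_between (mem_ball_zero_iff.1 hz)
  have h0 : 0 ≤ ρ := (norm_nonneg _).trans h1.le
  have hd : DifferentiableOn ℂ S (ball 0 ρ) := by
    refine differentiableOn_tsum_of_summable_norm
      ((summable_geometric_of_lt_one h0 h2).mul_left (2 / (1 - ρ))) (fun k w hw => ?_) isOpen_ball
      (fun k w hw => norm_term_le (mem_ball_zero_iff.1 hw).le h2 k)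
    have := one_sub_ne (norm_pow_lt ((mem_ball_zero_iff.1 hw).trans h2) k)
    unfold pb
    exact (DifferentiableAt.div (c := fun w : ℂ => -2 * w ^ 2 ^ k) (d := fun w : ℂ => 1 - w ^ 2 ^ k)
      (by fun_prop) (by fun_prop) this).differentiableWithinAt
  exact (hd.differentiableAt (isOpen_ball.mem_nhds (mem_ball_zero_iff.2 h1))).differentiableWithinAt

lemma rad_pow_le (n : ℕ) : rad n ^ 2 ^ n ≤ 1 / 2 := by
  have h1 : rad n ≤ Real.exp (-(1 / 2) ^ n) := by
    have := Real.add_one_le_exp (-(1 / 2 : ℝ) ^ n)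
    unfold rad; linarith only [this]
  calc rad n ^ 2 ^ n ≤ Real.exp (-(1 / 2) ^ n) ^ 2 ^ n := by gcongr; exact rad_nonneg n
    _ = Real.exp (-1) := by
      rw [← Real.exp_nat_mul]; congr 1; push_cast
      rw [mul_neg, ← mul_pow]; norm_num
    _ ≤ 1 / 2 := Real.exp_neg_one_lt_half.le

lemma S_re {n : ℕ} {z : ℂ} (hz : ‖z‖ ≤ rad n) : |(S z).re - (n - uu n z)| ≤ 4 := by
  have hz1 : ‖z‖ < 1 := hz.trans_lt (rad_lt_one n)
  have h1 := (summable_term hz1).sum_add_tsum_nat_add n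
  have h2 : (∑ k ∈ Finset.range n, pb (z ^ 2 ^ k)).re = n - uu n z := by
    rw [re_sum, Finset.sum_congr rfl (fun k _ => pb_re (norm_pow_lt hz1 k)),
      Finset.sum_sub_distrib]
    simp [uu]
  have h3 : ‖∑' j : ℕ, pb (z ^ 2 ^ (j + n))‖ ≤ 4 := by
    have hs : HasSum (fun j : ℕ => 2 * (1 / 2 : ℝ) ^ j) 4 := by
      have := hasSum_geometric_two.mul_left 2
      norm_num at this ⊢
      exact this
    refine tsum_of_norm_bounded hs (fun j => ?_)
    have k1 : ‖z ^ 2 ^ (j + n)‖ ≤ (1 / 2) ^ (j + 1) := by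
      rw [norm_pow, add_comm j n, pow_add, pow_mul]
      calc (‖z‖ ^ 2 ^ n) ^ 2 ^ j ≤ (1 / 2) ^ 2 ^ j := by
            gcongr
            exact le_trans (by gcongr) (rad_pow_le n)
        _ ≤ (1 / 2) ^ (j + 1) :=
            pow_le_pow_of_le_one (by norm_num) (by norm_num) Nat.lt_two_pow_self
    have k2 : ((1 : ℝ) / 2) ^ (j + 1) ≤ 1 / 2 :=
      pow_le_of_le_one (by norm_num) (by norm_num) (by simp)
    refine (norm_pb_le (k1.trans k2) (by norm_num)).trans ?_
    rw [pow_succ] at k1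
    norm_num at k1 ⊢
    linarith only [k1]
  unfold S
  rw [← h1, add_re, h2, add_sub_cancel_left]
  exact (abs_re_le_norm _).trans h3

lemma uu_nonneg (n : ℕ) {z : ℂ} (hz : ‖z‖ < 1) : 0 ≤ uu n z :=
  Finset.sum_nonneg (fun k _ => Po_nonneg (norm_pow_lt hz k))

lemma S_re_le {n : ℕ} {z : ℂ} (hz : ‖z‖ ≤ rad n) : (S z).re ≤ n + 4 := by
  have := (abs_le.1 (S_re hz)).2
  have := uu_nonneg n (hz.trans_lt (rad_lt_one n))
  linarith

lemma log_one_add_sum_le {ι : Type} (s : Finset ι) (x : ι → ℝ) (hx : ∀ i ∈ s, 0 ≤ x i) :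
    Real.log (1 + ∑ i ∈ s, x i) ≤ ∑ i ∈ s, Real.log (1 + x i) := by
  classical
  induction s using Finset.induction_on with
  | empty => simp
  | insert a s ha ih =>
    rw [Finset.sum_insert ha, Finset.sum_insert ha]
    have h1 := hx a (Finset.mem_insert_self _ _)
    have h2 : 0 ≤ ∑ i ∈ s, x i :=
      Finset.sum_nonneg (fun i hi => hx i (Finset.mem_insert_of_mem hi))
    have h3 := ih (fun i hi => hx i (Finset.mem_insert_of_mem hi))
    have h4 : Real.log (1 + (x a + ∑ i ∈ s, x i)) ≤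
        Real.log ((1 + x a) * (1 + ∑ i ∈ s, x i)) :=
      Real.log_le_log (by positivity) (by linarith only [h1, h2, mul_nonneg_of_nonpos_of_nonpos (Mathlib.Tactic.Linarith.sub_nonpos_of_le h1) (Mathlib.Tactic.Linarith.sub_nonpos_of_le h2)])
    rw [Real.log_mul (by positivity) (by positivity)] at h4
    linarith

lemma log_Po_eq {w : ℂ} {σ : ℝ} (hw : ‖w‖ < 1) (hσ : 0 ≤ σ) (h : σ ^ 2 = 1 - ‖w‖ ^ 2) :
    Real.log (1 + Po w) =
      Real.log (1 + σ) + 2 * Real.log ‖1 - ((1 + σ)⁻¹ : ℝ) * w‖ - 2 * Real.log ‖1 - w‖ := by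
  have h1 : 0 < ‖1 - w‖ := norm_pos_iff.2 (one_sub_ne hw)
  have h2 : 0 < ‖1 - ((1 + σ)⁻¹ : ℝ) * w‖ := by
    refine norm_pos_iff.2 (one_sub_ne ?_)
    rw [norm_mul, Complex.norm_real, Real.norm_eq_abs, abs_of_nonneg (by positivity)]
    exact lt_of_le_of_lt (mul_le_of_le_one_left (norm_nonneg _)
      (inv_le_one_of_one_le₀ (by linarith))) hw
  have h3 : 1 + Po w = (1 + σ) * ‖1 - ((1 + σ)⁻¹ : ℝ) * w‖ ^ 2 / ‖1 - w‖ ^ 2 := by
    unfold Po
    rw [eq_div_iff (by positivity), add_mul, div_mul_cancel₀ _ (by positivity), one_mul]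
    rw [Complex.sq_norm] at h
    rw [Complex.sq_norm, Complex.sq_norm, Complex.sq_norm]
    simp only [normSq_apply, sub_re, sub_im, one_re, one_im, mul_re, mul_im, ofReal_re,
      ofReal_im] at h ⊢
    field_simp
    linarith only [h]
  rw [h3, Real.log_div (by positivity) (by positivity), Real.log_mul (by positivity) (by positivity),
    Real.log_pow, Real.log_pow]
  norm_num

lemma avg_log_norm {r a : ℝ} (hr0 : 0 ≤ r) (hr : r < 1) (ha0 : 0 ≤ a) (ha : a ≤ 1) (k : ℕ) :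
    CircleIntegrable (fun z : ℂ => Real.log ‖1 - (a : ℂ) * z ^ 2 ^ k‖) 0 r ∧
    Real.circleAverage (fun z : ℂ => Real.log ‖1 - (a : ℂ) * z ^ 2 ^ k‖) 0 r = 0 := by
  refine ⟨MeromorphicOn.circleIntegrable_log_norm (fun z _ => by fun_prop), ?_⟩
  rw [AnalyticOnNhd.circleAverage_log_norm_of_ne_zero (fun z _ => by fun_prop)]
  · simp
  · intro u hu
    rw [abs_of_nonneg hr0, mem_closedBall_zero_iff] at hu
    refine one_sub_ne ?_
    rw [norm_mul, Complex.norm_real, Real.norm_eq_abs, abs_of_nonneg ha0]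
    exact lt_of_le_of_lt (mul_le_of_le_one_left (norm_nonneg _) ha) (norm_pow_lt (hu.trans_lt hr) k)

lemma continuousOn_Po (k : ℕ) {r : ℝ} (hr : r < 1) (hr0 : 0 ≤ r) :
    ContinuousOn (fun z : ℂ => Po (z ^ 2 ^ k)) (sphere 0 |r|) := by
  unfold Po
  refine ContinuousOn.div (by fun_prop) (by fun_prop) (fun z hz => ?_)
  rw [abs_of_nonneg hr0, mem_sphere_zero_iff_norm] at hz
  exact pow_ne_zero _ (norm_ne_zero_iff.2 (one_sub_ne (norm_pow_lt (hz ▸ hr) k)))

lemma avg_log_Po {n k : ℕ} (hk : k < n) :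
    Real.circleAverage (fun z : ℂ => Real.log (1 + Po (z ^ 2 ^ k))) 0 (rad n) ≤
      (3 / 4) ^ (n - 1 - k) := by
  have hr0 := rad_nonneg n
  have hr := rad_lt_one n
  set σ := Real.sqrt (1 - (rad n ^ 2 ^ k) ^ 2) with hσ
  have hp : rad n ^ 2 ^ k ≤ 1 := pow_le_one₀ hr0 hr.le
  have hp0 : 0 ≤ rad n ^ 2 ^ k := by positivity
  have hσ0 : 0 ≤ σ := Real.sqrt_nonneg _
  have hσ2 : σ ^ 2 = 1 - (rad n ^ 2 ^ k) ^ 2 := Real.sq_sqrt (by linarith only [hp, hp0, mul_nonneg_of_nonpos_of_nonpos (Mathlib.Tactic.Linarith.sub_nonpos_of_le hp) (Mathlib.Tactic.Linarith.sub_nonpos_of_le hp0)])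
  obtain ⟨i1, e1⟩ := avg_log_norm hr0 hr (a := (1 + σ)⁻¹) (by positivity)
    (inv_le_one_of_one_le₀ (by linarith only [hσ0])) k
  obtain ⟨i2, e2⟩ := avg_log_norm hr0 hr (a := 1) zero_le_one le_rfl k
  simp only [ofReal_one, one_mul] at i2 e2
  have heq : Real.circleAverage (fun z : ℂ => Real.log (1 + Po (z ^ 2 ^ k))) 0 (rad n) =
      Real.log (1 + σ) := by
    rw [Real.circleAverage_congr_sphere (f₂ := fun z : ℂ => Real.log (1 + σ) +
      (2 : ℝ) • Real.log ‖1 - ((1 + σ)⁻¹ : ℝ) * z ^ 2 ^ k‖ - (2 : ℝ) • Real.log ‖1 - z ^ 2 ^ k‖)]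
    · have j1 : CircleIntegrable
          (fun z : ℂ => (2 : ℝ) • Real.log ‖1 - ((1 + σ)⁻¹ : ℝ) * z ^ 2 ^ k‖) 0 (rad n) :=
        i1.const_smul
      have j2 : CircleIntegrable (fun z : ℂ => (2 : ℝ) • Real.log ‖1 - z ^ 2 ^ k‖) 0 (rad n) :=
        i2.const_smul
      have j0 : CircleIntegrable (fun _ : ℂ => Real.log (1 + σ)) 0 (rad n) :=
        circleIntegrable_const _ _ _
      have j3 : CircleIntegrable (fun z : ℂ => Real.log (1 + σ) +
          (2 : ℝ) • Real.log ‖1 - ((1 + σ)⁻¹ : ℝ) * z ^ 2 ^ k‖) 0 (rad n) := j0.add j1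
      rw [Real.circleAverage_fun_sub j3 j2, Real.circleAverage_fun_add j0 j1,
        Real.circleAverage_fun_smul, Real.circleAverage_fun_smul, e1, e2,
        Real.circleAverage_const]
      simp
    · intro z hz
      rw [abs_of_nonneg hr0, mem_sphere_zero_iff_norm] at hz
      exact log_Po_eq (norm_pow_lt (hz ▸ hr) k) hσ0 (by rw [norm_pow, hz]; exact hσ2)
  rw [heq]
  have h1 : Real.log (1 + σ) ≤ σ := by
    have := Real.log_le_sub_one_of_pos (show 0 < 1 + σ by linarith only [hσ0])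
    linarith only [this]
  refine h1.trans (Real.sqrt_le_iff.2 ⟨by positivity, ?_⟩)
  obtain ⟨i, rfl⟩ := Nat.exists_eq_add_of_lt hk
  have h2 : k + i + 1 - 1 - k = i := by omega
  have h3 := one_add_mul_le_pow (a := -(1 / 2 : ℝ) ^ (k + i + 1))
    (by have : ((1 : ℝ) / 2) ^ (k + i + 1) ≤ 1 := pow_le_one₀ (by norm_num) (by norm_num)
        linarith only [this]) (2 ^ k * 2)
  rw [h2, ← pow_mul (rad _), ← pow_mul (3 / 4 : ℝ), mul_comm i 2, pow_mul (3 / 4 : ℝ)]
  have h4 : ((2 ^ k * 2 : ℕ) : ℝ) * (1 / 2 : ℝ) ^ (k + i + 1) = (1 / 2) ^ i := by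
    push_cast
    rw [pow_succ, pow_add, one_div, inv_pow, inv_pow]
    field_simp
  have h5 : ((1 : ℝ) / 2) ^ i ≤ ((3 / 4) ^ 2) ^ i := by gcongr; norm_num
  unfold rad
  rw [sub_eq_add_neg 1 ((1 / 2 : ℝ) ^ (k + i + 1))]
  rw [mul_neg, h4] at h3
  linarith only [h3, h5]

lemma continuousOn_log_uu (n : ℕ) :
    ContinuousOn (fun z : ℂ => Real.log (1 + uu n z)) (sphere 0 |rad n|) := by
  refine ContinuousOn.log (continuousOn_const.add (continuousOn_finsetSum _
    (fun k _ => continuousOn_Po k (rad_lt_one n) (rad_nonneg n)))) (fun z hz => ?_)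
  rw [abs_of_nonneg (rad_nonneg n), mem_sphere_zero_iff_norm] at hz
  have := uu_nonneg n (hz ▸ rad_lt_one n : ‖z‖ < 1)
  linarith

lemma avg_log_uu (n : ℕ) :
    Real.circleAverage (fun z : ℂ => Real.log (1 + uu n z)) 0 (rad n) ≤ 4 := by
  have hr0 := rad_nonneg n
  have hr := rad_lt_one n
  have hi : ∀ k ∈ Finset.range n,
      CircleIntegrable (fun z : ℂ => Real.log (1 + Po (z ^ 2 ^ k))) 0 (rad n) := by
    intro k _
    refine ContinuousOn.circleIntegrable' (ContinuousOn.log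
      (continuousOn_const.add (continuousOn_Po k hr hr0)) (fun z hz => ?_))
    rw [abs_of_nonneg hr0, mem_sphere_zero_iff_norm] at hz
    have := Po_nonneg (norm_pow_lt (hz ▸ hr : ‖z‖ < 1) k)
    linarith
  calc Real.circleAverage (fun z : ℂ => Real.log (1 + uu n z)) 0 (rad n)
      ≤ Real.circleAverage (fun z : ℂ => ∑ k ∈ Finset.range n, Real.log (1 + Po (z ^ 2 ^ k)))
          0 (rad n) := by
        refine Real.circleAverage_mono (continuousOn_log_uu n).circleIntegrable'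
          (CircleIntegrable.fun_sum _ hi) (fun z hz => ?_)
        rw [abs_of_nonneg hr0, mem_sphere_zero_iff_norm] at hz
        exact log_one_add_sum_le _ _ (fun k _ => Po_nonneg (norm_pow_lt (hz ▸ hr) k))
    _ = ∑ k ∈ Finset.range n,
          Real.circleAverage (fun z : ℂ => Real.log (1 + Po (z ^ 2 ^ k))) 0 (rad n) :=
        Real.circleAverage_fun_sum hi
    _ ≤ ∑ k ∈ Finset.range n, (3 / 4 : ℝ) ^ (n - 1 - k) :=
        Finset.sum_le_sum (fun k hk => avg_log_Po (Finset.mem_range.1 hk))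
    _ = ∑ k ∈ Finset.range n, (3 / 4 : ℝ) ^ k := Finset.sum_range_reflect _ n
    _ ≤ 4 := by
        have h := hasSum_geometric_of_lt_one (r := (3 / 4 : ℝ)) (by norm_num) (by norm_num)
        refine (sum_le_hasSum _ (fun _ _ => by positivity) h).trans (by norm_num)

end Pool.Agent.Work.MP_6ac3f6_an
end

-- merged part: Pool.Agent.Work.MP_6ac3f6_an.Lower
section
/-!
# Growth of primitives of the exponential of the series
-/

namespace Pool.Agent.Work.MP_6ac3f6_an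

open Complex Metric Set Filter Topology Real

/-- the zero free function -/
noncomputable def QQ (M : ℝ) (z : ℂ) : ℂ := Complex.exp (M * S z)

lemma norm_QQ (M : ℝ) (z : ℂ) : ‖QQ M z‖ = Real.exp (M * (S z).re) := by
  unfold QQ; rw [Complex.norm_exp]; simp

lemma differentiableOn_QQ (M : ℝ) : DifferentiableOn ℂ (QQ M) (ball 0 1) :=
  (differentiableOn_S.const_mul _).cexp

lemma grow {g φ : ℂ → ℂ} (hg : ∀ z ∈ ball (0 : ℂ) 1, HasDerivAt g (φ z) z) (b : ℕ → ℝ)
    (hb : ∀ n z, ‖z‖ ≤ rad n → ‖φ z‖ ≤ b n) (n : ℕ) :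
    ∀ z, ‖z‖ ≤ rad n → ‖g z‖ ≤ ‖g 0‖ + ∑ i ∈ Finset.range n, b (i + 1) * (1 / 2) ^ (i + 1) := by
  induction n with
  | zero =>
    intro z hz
    have : z = 0 := by simpa [rad] using hz
    simp [this]
  | succ n ih =>
    intro z hz
    have hp : 0 < rad (n + 1) := by
      have := rad_nonneg n
      rw [rad_succ]; positivity
    have hle : rad n ≤ rad (n + 1) := by rw [rad_succ]; exact le_add_of_nonneg_right (by positivity)
    have h1 : ‖((rad n / rad (n + 1) : ℝ) : ℂ) * z‖ ≤ rad n := by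
      rw [norm_mul, Complex.norm_real, Real.norm_eq_abs,
        abs_of_nonneg (div_nonneg (rad_nonneg n) hp.le), div_mul_eq_mul_div, div_le_iff₀ hp]
      exact mul_le_mul_of_nonneg_left hz (rad_nonneg n)
    have h2 : ‖z - ((rad n / rad (n + 1) : ℝ) : ℂ) * z‖ ≤ (1 / 2) ^ (n + 1) := by
      have : z - ((rad n / rad (n + 1) : ℝ) : ℂ) * z =
          (((1 / 2) ^ (n + 1) / rad (n + 1) : ℝ) : ℂ) * z := by
        rw [← one_sub_mul]
        congr 1
        rw [← ofReal_one, ← ofReal_sub]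
        congr 1
        field_simp
        rw [rad_succ]; ring
      rw [this, norm_mul, Complex.norm_real, Real.norm_eq_abs, abs_of_nonneg (by positivity),
        div_mul_eq_mul_div, div_le_iff₀ hp]
      exact mul_le_mul_of_nonneg_left hz (by positivity)
    have h3 := (convex_closedBall (0 : ℂ) (rad (n + 1))).norm_image_sub_le_of_norm_hasDerivWithin_le
      (f := g) (f' := φ) (C := b (n + 1))
      (fun x hx => (hg x (mem_ball_zero_iff.2 ((mem_closedBall_zero_iff.1 hx).trans_lt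
        (rad_lt_one _)))).hasDerivWithinAt)
      (fun x hx => hb _ x (mem_closedBall_zero_iff.1 hx))
      (mem_closedBall_zero_iff.2 (h1.trans hle)) (mem_closedBall_zero_iff.2 hz)
    have h4 := ih _ h1
    have h5 : 0 ≤ b (n + 1) := (norm_nonneg _).trans (hb _ z hz)
    have h6 := norm_le_norm_sub_add (g z) (g (((rad n / rad (n + 1) : ℝ) : ℂ) * z))
    have h7 := mul_le_mul_of_nonneg_left h2 h5
    rw [Finset.sum_range_succ]
    linarith only [h3, h4, h6, h7]

lemma local_QQ {M Λ : ℝ} (hM : 0 < M) (hΛ : 0 ≤ Λ) {n : ℕ} {z₀ z : ℂ} (hz₀ : ‖z₀‖ ≤ rad n)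
    (hu : uu n z₀ ≤ Λ) (hz : ‖z - z₀‖ ≤ (8 * (M * (Λ + 9)) + 1)⁻¹ * (1 / 2) ^ (n + 1)) :
    ‖QQ M z - QQ M z₀‖ ≤ ‖QQ M z₀‖ / 2 := by
  set A := M * (Λ + 9) with hA
  have hA0 : 0 < A := by positivity
  set R : ℝ := (1 / 2) ^ (n + 1) with hR
  have hR0 : 0 < R := by positivity
  have hin : ∀ ζ ∈ ball (0 : ℂ) R, ‖z₀ + ζ‖ ≤ rad (n + 1) := by
    intro ζ hζ
    rw [rad_succ]
    exact (norm_add_le _ _).trans (add_le_add hz₀ (mem_ball_zero_iff.1 hζ).le)
  have hκ : (8 * A + 1)⁻¹ * R < R :=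
    mul_lt_of_lt_one_left hR0 (inv_lt_one_of_one_lt₀ (by linarith only [hA0]))
  have h1 := borelCaratheodory_zero (f := fun ζ => M * (S (z₀ + ζ) - S z₀)) (M := A) (R := R)
    (z := z - z₀) hA0 ?_ ?_ hR0 (mem_ball_zero_iff.2 (hz.trans_lt hκ)) (by simp)
  · simp only [add_sub_cancel] at h1
    have h2 : 2 * A * ‖z - z₀‖ / (R - ‖z - z₀‖) ≤ 1 / 4 := by
      rw [div_le_iff₀ (by linarith only [hz, hκ])]
      have : (8 * A + 1) * ‖z - z₀‖ ≤ R := by
        rwa [inv_mul_eq_div, le_div_iff₀' (by positivity)] at hz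
      linarith only [this]
    have h3 := Complex.norm_exp_sub_one_le (x := M * (S z - S z₀)) (by linarith only [h1, h2])
    have h4 : QQ M z - QQ M z₀ = QQ M z₀ * (Complex.exp (M * (S z - S z₀)) - 1) := by
      unfold QQ
      rw [mul_sub, mul_one, ← Complex.exp_add]
      congr 2; ring
    rw [h4, norm_mul]
    linarith only [h1, h2, h3, norm_nonneg (QQ M z₀), mul_nonneg_of_nonpos_of_nonpos (Mathlib.Tactic.Linarith.sub_nonpos_of_le h1) (Mathlib.Tactic.Linarith.sub_nonpos_of_le (norm_nonneg (QQ M z₀))), mul_nonneg_of_nonpos_of_nonpos (Mathlib.Tactic.Linarith.sub_nonpos_of_le h2) (Mathlib.Tactic.Linarith.sub_nonpos_of_le (norm_nonneg (QQ M z₀))), mul_nonneg_of_nonpos_of_nonpos (Mathlib.Tactic.Linarith.sub_nonpos_of_le h3) (Mathlib.Tactic.Linarith.sub_nonpos_of_le (norm_nonneg (QQ M z₀)))]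
  · refine DifferentiableOn.const_mul (DifferentiableOn.sub_const ?_ _) _
    exact differentiableOn_S.comp (by fun_prop)
      (fun ζ hζ => mem_ball_zero_iff.2 ((hin ζ hζ).trans_lt (rad_lt_one _)))
  · intro ζ hζ
    have k1 := S_re_le (hin ζ hζ)
    have k2 := (abs_le.1 (S_re hz₀)).1
    simp only [mem_ofPred_eq, re_ofReal_mul, sub_re]
    push_cast at k1
    exact mul_le_mul_of_nonneg_left (by linarith only [hu, k2, k1]) hM.le

lemma sum_ge_of_pair {m : ℕ} {a : ℝ} (ha : 0 ≤ a) (x : ℕ → ℝ) (hx : ∀ i, 0 ≤ x i)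
    (h : ∀ i ∈ Finset.range (m + 1), ∀ j ∈ Finset.range (m + 1), i ≠ j → a ≤ x i ∨ a ≤ x j) :
    m * a ≤ ∑ i ∈ Finset.range (m + 1), x i := by
  obtain ⟨j, hj, hmin⟩ := (Finset.range (m + 1)).exists_min_image x (by simp)
  rw [← Finset.add_sum_erase _ _ hj]
  have h1 := Finset.card_nsmul_le_sum ((Finset.range (m + 1)).erase j) x a (fun i hi => by
    rcases h i (Finset.mem_of_mem_erase hi) j hj (Finset.ne_of_mem_erase hi) with h' | h'
    · exact h'
    · exact h'.trans (hmin i (Finset.mem_of_mem_erase hi)))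
  rw [Finset.card_erase_of_mem hj, Finset.card_range, Nat.add_sub_cancel, nsmul_eq_mul] at h1
  linarith only [h1, hx, hx j]

lemma norm_rot_le (θ : ℝ) (h : |θ| ≤ 1 / 2) :
    |θ| / 2 ≤ ‖Complex.exp (θ * I) - 1‖ ∧ ‖Complex.exp (θ * I) - 1‖ ≤ 2 * |θ| := by
  have h0 : ‖(θ : ℂ) * I‖ = |θ| := by simp
  have h1 := Complex.norm_exp_sub_one_le (x := θ * I) (by rw [h0]; linarith only [h])
  have h2 := Complex.norm_exp_sub_one_sub_id_le (x := θ * I) (by rw [h0]; linarith only [h])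
  have h3 := norm_sub_le (Complex.exp (θ * I) - 1) (Complex.exp (θ * I) - 1 - θ * I)
  rw [sub_sub_cancel, h0] at h3
  rw [h0] at h1 h2
  exact ⟨by linarith only [h2, h3, h, abs_nonneg θ, mul_nonneg_of_nonpos_of_nonpos (Mathlib.Tactic.Linarith.sub_nonpos_of_le h) (Mathlib.Tactic.Linarith.sub_nonpos_of_le (abs_nonneg θ))], h1⟩

lemma pointwise {M Λ : ℝ} (hM : 0 < M) (hΛ : 0 ≤ Λ) {Φ : ℂ → ℂ}
    (hΦ : ∀ z ∈ ball (0 : ℂ) 1, HasDerivAt Φ (QQ M z) z) {n m : ℕ} (hn : 1 ≤ n) (hm : 1 ≤ m)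
    {z₀ : ℂ} (hz₀ : ‖z₀‖ = rad n) (hu : uu n z₀ ≤ Λ) {t a : ℝ}
    (ht : t = (8 * (M * (Λ + 9)) + 1)⁻¹ * (1 / 2) ^ (n + 1) / (2 * m)) (ha0 : 0 ≤ a)
    (ha : a = M * (n - Λ - 4) + Real.log (t / 16)) :
    m * a ≤ ∑ j ∈ Finset.range (m + 1), log⁺ ‖Φ (z₀ * Complex.exp ((j * t : ℝ) * I))‖ := by
  set ρ : ℝ := (8 * (M * (Λ + 9)) + 1)⁻¹ * (1 / 2) ^ (n + 1) with hρ
  have hm0 : (0 : ℝ) < m := by exact_mod_cast hm
  have hρ0 : 0 < ρ := by positivity
  have ht0 : 0 < t := by rw [ht]; positivity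
  have hρ1 : ρ ≤ (1 / 2) ^ (n + 1) :=
    mul_le_of_le_one_left (by positivity) (inv_le_one_of_one_le₀ (by
      have : 0 ≤ M * (Λ + 9) := by positivity
      linarith only [this]))
  have hρ2 : ρ ≤ 1 := hρ1.trans (pow_le_one₀ (by norm_num) (by norm_num))
  have hmt : 2 * (m * t) = ρ := by rw [ht]; field_simp
  have hr : 1 / 2 ≤ rad n := by
    have : ((1 : ℝ) / 2) ^ n ≤ 1 / 2 := pow_le_of_le_one (by norm_num) (by norm_num) (by omega)
    unfold rad; linarith only [this]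
  have hin : ∀ j ∈ Finset.range (m + 1),
      z₀ * Complex.exp ((j * t : ℝ) * I) ∈ closedBall z₀ ρ := by
    intro j hj
    have hj' : (j : ℝ) ≤ m := by exact_mod_cast Nat.lt_succ_iff.1 (Finset.mem_range.1 hj)
    have k1 : |(j : ℝ) * t| ≤ m * t := by rw [abs_of_nonneg (by positivity)]; gcongr
    have k2 := (norm_rot_le (j * t) (by linarith only [hρ2, hmt, k1])).2
    rw [mem_closedBall, dist_eq_norm, ← mul_sub_one, norm_mul, hz₀]
    linarith only [k1, k2, hmt, mul_le_of_le_one_left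
      (norm_nonneg (Complex.exp ((j * t : ℝ) * I) - 1)) (rad_lt_one n).le]
  have hlow : ∀ p ∈ closedBall z₀ ρ, ∀ q ∈ closedBall z₀ ρ,
      ‖QQ M z₀‖ / 2 * ‖q - p‖ ≤ ‖Φ q - Φ p‖ := by
    intro p hp q hq
    have k1 := (convex_closedBall z₀ ρ).norm_image_sub_le_of_norm_hasDerivWithin_le
      (f := fun z => Φ z - QQ M z₀ * z) (f' := fun z => QQ M z - QQ M z₀) (C := ‖QQ M z₀‖ / 2)
      (fun x hx => by
        have hx1 : x ∈ ball (0 : ℂ) 1 := by
          have := norm_le_norm_sub_add x z₀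
          rw [mem_closedBall, dist_eq_norm] at hx
          have := rad_lt_one (n + 1)
          rw [rad_succ] at this
          exact mem_ball_zero_iff.2 (by linarith)
        have hd := (hΦ x hx1).sub ((hasDerivAt_id' x).const_mul (QQ M z₀))
        rw [mul_one] at hd
        exact hd.hasDerivWithinAt)
      (fun x hx => local_QQ hM hΛ hz₀.le hu (by rwa [mem_closedBall, dist_eq_norm] at hx)) hp hq
    have k2 := norm_sub_le (Φ q - Φ p) (Φ q - QQ M z₀ * q - (Φ p - QQ M z₀ * p))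
    have k3 : Φ q - Φ p - (Φ q - QQ M z₀ * q - (Φ p - QQ M z₀ * p)) = QQ M z₀ * (q - p) := by ring
    rw [k3, norm_mul] at k2
    linarith only [k1, k2]
  have hQ : Real.exp (M * (n - Λ - 4)) ≤ ‖QQ M z₀‖ := by
    rw [norm_QQ]
    have := (abs_le.1 (S_re hz₀.le)).1
    gcongr
    linarith only [hu, this]
  refine sum_ge_of_pair ha0 _ (fun _ => posLog_nonneg) (fun i hi j hj hij => ?_)
  have hi' : (i : ℝ) ≤ m := by exact_mod_cast Nat.lt_succ_iff.1 (Finset.mem_range.1 hi)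
  have hj' : (j : ℝ) ≤ m := by exact_mod_cast Nat.lt_succ_iff.1 (Finset.mem_range.1 hj)
  have k1 := hlow _ (hin i hi) _ (hin j hj)
  have k2 : z₀ * Complex.exp ((j * t : ℝ) * I) - z₀ * Complex.exp ((i * t : ℝ) * I) =
      z₀ * Complex.exp ((i * t : ℝ) * I) * (Complex.exp ((((j : ℝ) - i) * t : ℝ) * I) - 1) := by
    rw [mul_sub, mul_one, mul_assoc z₀, ← Complex.exp_add]
    congr 3; push_cast; ring
  have k3 : 1 ≤ |(j : ℝ) - i| := by
    have : (1 : ℤ) ≤ |(j : ℤ) - i| := Int.one_le_abs (by omega)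
    exact_mod_cast this
  have k4 : |(j : ℝ) - i| ≤ m := by
    rw [abs_le]; constructor <;> linarith only [hi', hj', (Nat.cast_nonneg i : (0 : ℝ) ≤ i),
      (Nat.cast_nonneg j : (0 : ℝ) ≤ j)]
  have k5 := (norm_rot_le (((j : ℝ) - i) * t) (by
    rw [abs_mul, abs_of_pos ht0]
    linarith only [mul_le_mul_of_nonneg_right k4 ht0.le, hmt, hρ2])).1
  rw [abs_mul, abs_of_pos ht0] at k5
  rw [k2, norm_mul, norm_mul, Complex.norm_exp_ofReal_mul_I, mul_one, hz₀] at k1
  have k6 : t / 4 ≤ rad n * ‖Complex.exp ((((j : ℝ) - i) * t : ℝ) * I) - 1‖ := by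
    have l1 : t / 2 ≤ ‖Complex.exp ((((j : ℝ) - i) * t : ℝ) * I) - 1‖ := by
      linarith only [k5, mul_le_mul_of_nonneg_right k3 ht0.le]
    have l2 := mul_le_mul hr l1 (half_pos ht0).le (rad_nonneg n)
    linarith only [l2]
  have k7 : 2 * Real.exp a ≤ ‖Φ (z₀ * Complex.exp ((j * t : ℝ) * I)) -
      Φ (z₀ * Complex.exp ((i * t : ℝ) * I))‖ := by
    rw [ha, Real.exp_add, Real.exp_log (by positivity)]
    refine le_trans ?_ k1
    have := mul_le_mul hQ k6 (by positivity) (norm_nonneg _)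
    linarith only [this]
  have k8 := norm_sub_le (Φ (z₀ * Complex.exp ((j * t : ℝ) * I)))
    (Φ (z₀ * Complex.exp ((i * t : ℝ) * I)))
  have k9 : ∀ w : ℂ, Real.exp a ≤ ‖w‖ → a ≤ log⁺ ‖w‖ := fun w hw =>
    ((Real.le_log_iff_exp_le ((Real.exp_pos a).trans_le hw)).2 hw).trans (le_max_right _ _)
  by_contra hcon
  rw [not_or] at hcon
  linarith only [k7, k8, not_le.1 (fun h => hcon.1 (k9 _ h)), not_le.1 (fun h => hcon.2 (k9 _ h))]

lemma avg_rot (g : ℂ → ℝ) (r θ : ℝ) :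
    circleAverage (fun z => g (z * Complex.exp (θ * I))) 0 r = circleAverage g 0 r := by
  rw [circleAverage_eq_integral_add (f := g) θ, circleAverage_def]
  congr 2
  funext s
  simp only [circleMap, zero_add, mul_assoc, ← Complex.exp_add]
  congr 3; push_cast; ring

lemma avg_lower {M Λ : ℝ} (hM : 0 < M) (hΛ : 0 < Λ) {Φ : ℂ → ℂ}
    (hΦ : ∀ z ∈ ball (0 : ℂ) 1, HasDerivAt Φ (QQ M z) z) {n m : ℕ} (hn : 1 ≤ n) (hm : 1 ≤ m)
    {t a : ℝ} (ht : t = (8 * (M * (Real.exp Λ + 9)) + 1)⁻¹ * (1 / 2) ^ (n + 1) / (2 * m))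
    (ha0 : 0 ≤ a) (ha : a = M * (n - Real.exp Λ - 4) + Real.log (t / 16)) :
    m * a * (1 - 4 / Λ) ≤ (m + 1) * circleAverage (fun z => log⁺ ‖Φ z‖) 0 (rad n) := by
  have hr0 := rad_nonneg n
  have hc : ContinuousOn Φ (ball 0 1) := fun z hz => (hΦ z hz).continuousAt.continuousWithinAt
  have hi : ∀ j ∈ Finset.range (m + 1), CircleIntegrable
      (fun z => log⁺ ‖Φ (z * Complex.exp ((j * t : ℝ) * I))‖) 0 (rad n) := by
    intro j _
    refine ContinuousOn.circleIntegrable' (continuous_posLog.comp_continuousOn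
      (ContinuousOn.norm (hc.comp (by fun_prop) (fun z hz => ?_))))
    rw [abs_of_nonneg hr0, mem_sphere_zero_iff_norm] at hz
    rw [mem_ball_zero_iff, norm_mul, Complex.norm_exp_ofReal_mul_I, mul_one, hz]
    exact rad_lt_one n
  have hi2 : CircleIntegrable (fun z => (m * a / Λ) • Real.log (1 + uu n z)) 0 (rad n) :=
    (continuousOn_log_uu n).circleIntegrable'.const_smul
  have hi3 : CircleIntegrable (fun _ : ℂ => m * a) 0 (rad n) := circleIntegrable_const _ _ _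
  have h1 : circleAverage (fun z => m * a - (m * a / Λ) • Real.log (1 + uu n z)) 0 (rad n) ≤
      circleAverage (fun z => ∑ j ∈ Finset.range (m + 1),
        log⁺ ‖Φ (z * Complex.exp ((j * t : ℝ) * I))‖) 0 (rad n) := by
    refine circleAverage_mono (hi3.sub hi2) (CircleIntegrable.fun_sum _ hi) (fun z hz => ?_)
    rw [abs_of_nonneg hr0, mem_sphere_zero_iff_norm] at hz
    have hu0 := uu_nonneg n (hz ▸ rad_lt_one n : ‖z‖ < 1)
    have hl : 0 ≤ Real.log (1 + uu n z) := Real.log_nonneg (by linarith only [hu0])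
    rw [smul_eq_mul]
    by_cases hu : uu n z ≤ Real.exp Λ
    · have := pointwise hM (Real.exp_pos Λ).le hΦ hn hm hz hu ht ha0 ha
      have : 0 ≤ m * a / Λ * Real.log (1 + uu n z) := by positivity
      linarith
    · have k1 : Λ ≤ Real.log (1 + uu n z) :=
        (Real.le_log_iff_exp_le (by linarith only [hu0])).2 (by linarith only [hu])
      have k2 : m * a / Λ * Λ ≤ m * a / Λ * Real.log (1 + uu n z) := by gcongr
      rw [div_mul_cancel₀ _ hΛ.ne'] at k2
      have : 0 ≤ ∑ j ∈ Finset.range (m + 1), log⁺ ‖Φ (z * Complex.exp ((j * t : ℝ) * I))‖ :=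
        Finset.sum_nonneg (fun _ _ => posLog_nonneg)
      linarith only [k2, this]
  rw [circleAverage_fun_sub hi3 hi2, circleAverage_fun_smul, circleAverage_const,
    circleAverage_fun_sum hi, Finset.sum_congr rfl
      (fun (j : ℕ) _ => avg_rot (fun z => log⁺ ‖Φ z‖) (rad n) (j * t))] at h1
  simp only [Finset.sum_const, Finset.card_range, nsmul_eq_mul, smul_eq_mul] at h1
  push_cast at h1
  have h2 : m * a / Λ * circleAverage (fun z : ℂ => Real.log (1 + uu n z)) 0 (rad n) ≤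
      m * a / Λ * 4 := mul_le_mul_of_nonneg_left (avg_log_uu n) (by positivity)
  have h3 : m * a * (1 - 4 / Λ) = m * a - m * a / Λ * 4 := by ring
  linarith only [h1, h2, h3]

end Pool.Agent.Work.MP_6ac3f6_an
end

-- merged part: Pool.Agent.Work.MP_6ac3f6_an.Main
section
/-!
# Functions of the class with growth index close to one
-/

namespace Pool.Agent.Work.MP_6ac3f6_an

open Complex Metric Set Filter Topology Real

lemma exists_prim {φ : ℂ → ℂ} (hφ : DifferentiableOn ℂ φ (ball 0 1)) (c : ℂ) :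
    ∃ g : ℂ → ℂ, g 0 = c ∧ ∀ z ∈ ball (0 : ℂ) 1, HasDerivAt g (φ z) z := by
  obtain ⟨g, hg⟩ := hφ.isExactOn_ball
  exact ⟨fun z => g z - g 0 + c, by simp, fun z hz => ((hg z hz).sub_const _).add_const _⟩

lemma exists_rad {r : ℝ} (hr0 : 0 ≤ r) (hr : r < 1) :
    ∃ n : ℕ, r ≤ rad n ∧ (1 - r) / 2 ≤ (1 / 2) ^ n := by
  obtain ⟨n, h1, h2⟩ := exists_nat_pow_near_of_lt_one (x := 1 - r) (y := (1 / 2 : ℝ))
    (by linarith) (by linarith) (by norm_num) (by norm_num)
  refine ⟨n + 1, by unfold rad; linarith only [h1], ?_⟩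
  rw [pow_succ]; linarith only [h2]

lemma geom_up {q : ℝ} (hq : 1 < q) (n : ℕ) :
    ∑ i ∈ Finset.range n, q ^ (i + 1) ≤ q / (q - 1) * q ^ n := by
  have h : 0 < q - 1 := by linarith
  induction n with
  | zero => simp; positivity
  | succ n ih =>
    rw [Finset.sum_range_succ]
    have : q / (q - 1) * q ^ (n + 1) = q / (q - 1) * q ^ n + q ^ (n + 1) := by
      field_simp; ring
    linarith only [ih, this]

lemma geom_down {p : ℝ} (hp0 : 0 ≤ p) (hp : p < 1) (n : ℕ) :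
    ∑ i ∈ Finset.range n, p ^ (i + 1) ≤ (1 - p)⁻¹ := by
  have h := sum_le_hasSum (Finset.range n) (fun i _ => pow_nonneg hp0 i)
    (hasSum_geometric_of_lt_one hp0 hp)
  exact (Finset.sum_le_sum (fun i _ => pow_le_pow_of_le_one hp0 hp.le (Nat.le_succ i))).trans h

lemma construct {M : ℝ} (h1 : Real.log 2 < M) (h2 : M < 2 * Real.log 2) :
    ∃ y Φ : ℂ → ℂ, ∃ C : ℝ, 1 ≤ C ∧ Φ 0 = 1 ∧ (∀ z ∈ ball (0 : ℂ) 1, HasDerivAt y (Φ z) z) ∧
      (∀ z ∈ ball (0 : ℂ) 1, HasDerivAt Φ (QQ M z) z) ∧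
      (∀ z ∈ ball (0 : ℂ) 1, 1 ≤ ‖y z‖ ∧ ‖y z‖ ≤ C) ∧
      ∀ n z, ‖z‖ ≤ rad n → ‖Φ z‖ ≤ C * 2 ^ n := by
  have hM : 0 < M := (Real.log_pos one_lt_two).trans h1
  set q : ℝ := Real.exp M / 2 with hq
  have hq1 : 1 < q := by
    have := Real.exp_lt_exp.2 h1
    rw [Real.exp_log two_pos] at this
    rw [hq]; linarith only [this]
  have hq2 : q < 2 := by
    have := Real.exp_lt_exp.2 h2
    rw [two_mul, Real.exp_add, Real.exp_log two_pos] at this
    rw [hq]; linarith only [this]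
  obtain ⟨Φ, h0, hΦ⟩ := exists_prim (differentiableOn_QQ M) 1
  set E : ℝ := Real.exp (4 * M) with hE
  have hE0 : 0 < E := Real.exp_pos _
  have k1 : ∀ n z, ‖z‖ ≤ rad n → ‖QQ M z‖ ≤ E * Real.exp M ^ n := by
    intro n z hz
    rw [norm_QQ, hE, ← Real.exp_nat_mul, ← Real.exp_add]
    have := mul_le_mul_of_nonneg_left (S_re_le hz) hM.le
    exact Real.exp_le_exp.2 (by linarith only [this])
  set C₁ : ℝ := 1 + E * (q / (q - 1)) with hC₁
  have hq0 : 0 < q / (q - 1) := div_pos (by linarith only [hq1, hq2]) (by linarith only [hq1])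
  have hC1 : 1 ≤ C₁ := le_add_of_nonneg_right (by positivity)
  have k2 : ∀ n z, ‖z‖ ≤ rad n → ‖Φ z‖ ≤ C₁ * q ^ n := by
    intro n z hz
    have a1 := grow hΦ _ k1 n z hz
    have a2 : ∑ i ∈ Finset.range n, E * Real.exp M ^ (i + 1) * (1 / 2) ^ (i + 1) =
        E * ∑ i ∈ Finset.range n, q ^ (i + 1) := by
      rw [Finset.mul_sum]
      refine Finset.sum_congr rfl (fun i _ => ?_)
      rw [mul_assoc, ← mul_pow, hq]; congr 2; ring
    have a3 := mul_le_mul_of_nonneg_left (geom_up hq1 n) hE0.le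
    have a4 : 1 ≤ q ^ n := one_le_pow₀ hq1.le
    rw [a2, h0, norm_one] at a1
    rw [hC₁]; linarith only [a1, a3, a4]
  obtain ⟨y, hy0, hy⟩ := exists_prim (φ := Φ)
    (fun z hz => (hΦ z hz).differentiableAt.differentiableWithinAt) 0
  set C₂ : ℝ := C₁ * (1 - q / 2)⁻¹ with hC₂
  have k3 : ∀ z ∈ ball (0 : ℂ) 1, ‖y z‖ ≤ C₂ := by
    intro z hz
    obtain ⟨n, hn, -⟩ := exists_rad (norm_nonneg z) (mem_ball_zero_iff.1 hz)
    have a1 := grow hy _ k2 n z hn
    have a2 : ∑ i ∈ Finset.range n, C₁ * q ^ (i + 1) * (1 / 2) ^ (i + 1) =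
        C₁ * ∑ i ∈ Finset.range n, (q / 2) ^ (i + 1) := by
      rw [Finset.mul_sum]
      refine Finset.sum_congr rfl (fun i _ => ?_)
      rw [mul_assoc, ← mul_pow]; congr 2; ring
    rw [a2, hy0, norm_zero, zero_add] at a1
    exact a1.trans (mul_le_mul_of_nonneg_left (geom_down (by linarith only [hq1, hq2]) (by linarith only [hq2]) n)
      (by linarith only [hq1, hq2, hC1]))
  have hC2 : 0 ≤ C₂ := (norm_nonneg _).trans (k3 0 (mem_ball_self one_pos))
  refine ⟨fun z => y z + ((C₂ + 1 : ℝ) : ℂ), Φ, C₁ + 2 * C₂, by linarith only [hC1, hC2], h0,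
    fun z hz => (hy z hz).add_const _, hΦ, fun z hz => ?_, fun n z hz => ?_⟩
  · have a1 : ‖((C₂ + 1 : ℝ) : ℂ)‖ = C₂ + 1 := by
      rw [Complex.norm_real, Real.norm_of_nonneg (by linarith only [hq1, hq2, hC2])]
    have a2 := norm_add_le (y z) ((C₂ + 1 : ℝ) : ℂ)
    have a3 := norm_le_add_norm_add ((C₂ + 1 : ℝ) : ℂ) (y z)
    have a4 := k3 z hz
    rw [add_comm ((C₂ + 1 : ℝ) : ℂ)] at a3
    constructor <;> simp only [] <;> linarith only [a1, a3, a4, hC1, a2]
  · refine (k2 n z hz).trans ?_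
    gcongr
    linarith only [hC2]

lemma exists_good {δ : ℝ} (hδ : 0 < δ) (hδ' : δ ≤ 1 / 2) :
    ∃ f, InClass f ∧ ((1 - 4 * δ : ℝ) : EReal) ≤ alpha f := by
  have hl : 0 < Real.log 2 := Real.log_pos one_lt_two
  set M : ℝ := (2 - δ) * Real.log 2 with hM
  have hM0 : 0 < M := mul_pos (by linarith only [hδ, hδ']) hl
  obtain ⟨y, Φ, C, hC, h0, hy, hΦ, hb, hc⟩ := construct (M := M) (by linarith only [hl, hδ', mul_nonneg_of_nonpos_of_nonpos (Mathlib.Tactic.Linarith.sub_nonpos_of_le hδ') (le_of_lt (Mathlib.Tactic.Linarith.sub_neg_of_lt hl))]) (by linarith only [hδ, hl, mul_pos_of_neg_of_neg (Mathlib.Tactic.Linarith.sub_neg_of_lt hδ) (Mathlib.Tactic.Linarith.sub_neg_of_lt hl)])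
  have hya : AnalyticOnNhd ℂ y (ball 0 1) := DifferentiableOn.analyticOnNhd
    (fun z hz => (hy z hz).differentiableAt.differentiableWithinAt) isOpen_ball
  have hΦa : AnalyticOnNhd ℂ Φ (ball 0 1) := DifferentiableOn.analyticOnNhd
    (fun z hz => (hΦ z hz).differentiableAt.differentiableWithinAt) isOpen_ball
  have hy0 : ∀ z ∈ ball (0 : ℂ) 1, y z ≠ 0 := fun z hz h => by
    have := (hb z hz).1
    rw [h, norm_zero] at this
    linarith only [hδ, hδ', this]
  refine ⟨fun w => y w / Φ w, ⟨hya.meromorphicOn.fun_div hΦa.meromorphicOn, ?_, fun z hz ho => ?_⟩, ?_⟩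
  · refine lt_of_le_of_lt (limsup_le_of_le (a := (((Real.log C + Real.log 2) / Real.log 2 + 1 : ℝ) :
      EReal)) (by isBoundedDefault) ?_) (EReal.coe_lt_top _)
    filter_upwards [Ioo_mem_nhdsLT (show (1 / 2 : ℝ) < 1 by norm_num)] with r hr
    obtain ⟨hr1, hr2⟩ := hr
    have hr0 : 0 < r := by linarith only [hr1, hr2]
    obtain ⟨i1, i2⟩ := char_eq hya hΦa hy0 h0 hr0 hr2
    obtain ⟨n, hn1, hn2⟩ := exists_rad hr0.le hr2
    have a1 : Real.log 2 ≤ -Real.log (1 - r) := by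
      rw [← Real.log_inv]
      exact Real.log_le_log two_pos (by rw [le_inv_comm₀ two_pos (by linarith only [hr2])]; linarith only [hr1])
    have a2 : n * Real.log 2 ≤ Real.log 2 - Real.log (1 - r) := by
      have := Real.log_le_log (by linarith only [hr2]) hn2
      rw [Real.log_div (by linarith only [hr2]) two_ne_zero, Real.log_pow, one_div, Real.log_inv] at this
      linarith only [this]
    have a3 : circleAverage (fun z => Real.log (max ‖y z‖ ‖Φ z‖)) 0 r ≤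
        Real.log C + n * Real.log 2 := by
      refine circleAverage_mono_on_of_le_circle i1 (fun z hz => ?_)
      rw [mem_sphere_zero_iff_norm, abs_of_pos hr0] at hz
      have hz' : z ∈ ball (0 : ℂ) 1 := mem_ball_zero_iff.2 (hz ▸ hr2)
      rw [← Real.log_pow, ← Real.log_mul (by linarith only [hC, hr1, hr2]) (by positivity)]
      refine Real.log_le_log (lt_max_of_lt_left (by linarith only [hr1, hr2, hb, hz', (hb z hz').1]))
        (max_le ((hb z hz').2.trans ?_) (hc n z (hz ▸ hn1)))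
      exact le_mul_of_one_le_right (by linarith only [hC, hr1, hr2]) (one_le_pow₀ one_le_two)
    have a4 : 0 ≤ (Real.log C + Real.log 2) / Real.log 2 :=
      div_nonneg (by linarith only [hl, hC, Real.log_nonneg hC]) hl.le
    have a5 := mul_le_mul_of_nonneg_left a1 a4
    rw [div_mul_cancel₀ _ hl.ne'] at a5
    rw [EReal.coe_le_coe_iff, i2, div_le_iff₀ (by linarith only [hl, a1])]
    linarith only [a2, a3, a5]
  · have hz0 : Φ z ≠ 0 := by
      intro h
      rw [order_quot (hya z hz) (hΦa z hz) (hy0 z hz)] at ho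
      have a1 := order_ne_top hΦa h0 hz
      have a2 : 0 < meromorphicOrderAt Φ z := by
        rw [← tendsto_zero_iff_meromorphicOrderAt_pos (hΦa z hz).meromorphicAt, ← h]
        exact (hΦa z hz).continuousAt.tendsto.mono_left nhdsWithin_le_nhds
      lift meromorphicOrderAt Φ z to ℤ using a1 with k
      norm_cast at ho a2
      omega
    refine ⟨(hya z hz).fun_div (hΦa z hz) hz0, div_ne_zero (hy0 z hz) hz0, ?_⟩
    rw [((hy z hz).fun_div (hΦ z hz) hz0).deriv, Ne, div_eq_one_iff_eq (pow_ne_zero 2 hz0), sq,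
      sub_eq_self]
    exact mul_ne_zero (hy0 z hz) (Complex.exp_ne_zero _)
  · obtain ⟨m, hm⟩ := exists_nat_gt (1 / δ)
    have hm0 : (0 : ℝ) < m := lt_trans (by positivity) hm
    have hm1 : 1 ≤ m := by exact_mod_cast hm0
    set Λ : ℝ := 4 / δ with hΛ
    set κ : ℝ := (8 * (M * (Real.exp Λ + 9)) + 1)⁻¹ / (64 * m) with hκ
    have hκ0 : 0 < κ := by positivity
    set D : ℝ := M * (Real.exp Λ + 4) - Real.log κ with hD
    have ht : Tendsto rad atTop (𝓝[<] 1) := by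
      refine tendsto_nhdsWithin_iff.2 ⟨?_, Eventually.of_forall rad_lt_one⟩
      have := (tendsto_pow_atTop_nhds_zero_of_lt_one (r := (1 / 2 : ℝ)) (by norm_num)
        (by norm_num)).const_sub 1
      rwa [sub_zero] at this
    refine le_limsup_of_frequently_le (ht.frequently (Eventually.frequently ?_))
    filter_upwards [eventually_ge_atTop 1, (tendsto_natCast_atTop_atTop (R := ℝ)).eventually_ge_atTop
      (|D| / (δ * Real.log 2))] with n hn1 hn2
    have hn0 : (1 : ℝ) ≤ n := by exact_mod_cast hn1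
    rw [div_le_iff₀ (by positivity)] at hn2
    have hr0 : 0 < rad n := by
      have : ((1 : ℝ) / 2) ^ n < 1 := pow_lt_one₀ (by norm_num) (by norm_num) (by omega)
      unfold rad; linarith only [this]
    obtain ⟨i1, i2⟩ := char_eq hya hΦa hy0 h0 hr0 (rad_lt_one n)
    have a1 : -Real.log (1 - rad n) = n * Real.log 2 := by
      simp [rad]
    have a2 : n * ((1 - δ) * Real.log 2) - D = M * (n - Real.exp Λ - 4) + Real.log
        ((8 * (M * (Real.exp Λ + 9)) + 1)⁻¹ * (1 / 2) ^ (n + 1) / (2 * m) / 16) := by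
      have : (8 * (M * (Real.exp Λ + 9)) + 1)⁻¹ * (1 / 2) ^ (n + 1) / (2 * m) / 16 =
          κ * (1 / 2) ^ n := by
        rw [hκ]; field_simp; ring
      rw [this, Real.log_mul hκ0.ne' (by positivity), Real.log_pow, one_div, Real.log_inv, hD, hM]
      ring
    have b1 := le_abs_self D
    have b2 : 0 < n * Real.log 2 := by positivity
    have d2 : 0 ≤ 1 - 2 * δ := by linarith only [hδ']
    have a3 : 0 ≤ n * ((1 - δ) * Real.log 2) - D := by
      linarith only [hn2, b1, mul_nonneg b2.le d2]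
    have a4 := avg_lower hM0 (by positivity : 0 < Λ) hΦ hn1 hm1 rfl a3 a2
    have hsub : sphere (0 : ℂ) |rad n| ⊆ ball 0 1 := by
      rw [abs_of_pos hr0]; exact sphere_subset_ball (rad_lt_one n)
    have a5 : circleAverage (fun z => log⁺ ‖Φ z‖) 0 (rad n) ≤
        circleAverage (fun z => Real.log (max ‖y z‖ ‖Φ z‖)) 0 (rad n) := by
      refine circleAverage_mono (hΦa.mono hsub).meromorphicOn.circleIntegrable_posLog_norm i1
        (fun z hz => ?_)
      rw [posLog_eq_log_max_one (norm_nonneg _)]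
      exact Real.log_le_log (by positivity) (max_le_max_right _ (hb z (hsub hz)).1)
    have a6 : 1 - 4 / Λ = 1 - δ := by rw [hΛ]; field_simp
    have a7 : (1 - δ) * (m + 1) ≤ m := by
      rw [div_lt_iff₀ hδ] at hm
      linarith only [hm, hδ]
    rw [a6] at a4
    rw [EReal.coe_le_coe_iff, i2, a1, le_div_iff₀ b2]
    set a := n * ((1 - δ) * Real.log 2) - D with ha
    have a8 : (1 - δ) * (a * (1 - δ)) ≤ circleAverage (fun z => log⁺ ‖Φ z‖) 0 (rad n) := by
      have := mul_le_mul_of_nonneg_right a7 (mul_nonneg a3 (by linarith only [hδ'] : 0 ≤ 1 - δ))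
      refine le_of_mul_le_mul_left ?_ (by linarith only [hm0] : (0 : ℝ) < m + 1)
      linarith only [this, a4]
    have a9 : (1 - 2 * δ) * a ≤ (1 - δ) * (a * (1 - δ)) := by
      linarith only [mul_nonneg a3 (sq_nonneg δ)]
    have a10 : (1 - 2 * δ) * (n * Real.log 2) ≤ a := by linarith only [ha, b1, hn2]
    have a11 := mul_le_mul_of_nonneg_left a10 d2
    linarith only [a5, a8, a9, a11, mul_nonneg b2.le (sq_nonneg δ)]

theorem one_le_sup : (1 : EReal) ≤ sSup (alpha '' {f | InClass f}) := by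
  refine le_of_forall_lt (fun c hc => ?_)
  obtain ⟨x, h1, h2⟩ := EReal.lt_iff_exists_real_btwn.1 hc
  have h3 : x < 1 := by exact_mod_cast h2
  obtain ⟨f, hf, h⟩ := exists_good (δ := min ((1 - x) / 4) (1 / 2))
    (lt_min (by linarith only [h3]) (by norm_num)) (min_le_right _ _)
  refine h1.trans_le (le_trans ?_ (h.trans (le_sSup ⟨f, hf, rfl⟩)))
  rw [EReal.coe_le_coe_iff]
  linarith only [min_le_left ((1 - x) / 4) (1 / 2)]

end Pool.Agent.Work.MP_6ac3f6_an
end
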