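import Mathlib

/-!
# Circle averages for the lemma on the logarithmic derivative
-/

namespace Pool.Agent.Work.MP_6ac3f6_an

open Complex Metric Set Filter Topology Real MeasureTheory ComplexConjugate

lemma avg_mono_ae {f g : ℂ → ℝ} {r : ℝ} (hr : r ≠ 0) (hf : CircleIntegrable f 0 r)
    (hg : CircleIntegrable g 0 r) (h : ∀ᶠ z in codiscreteWithin (sphere (0 : ℂ) |r|), f z ≤ g z) :
    circleAverage f 0 r ≤ circleAverage g 0 r := by
  have e : f =ᶠ[codiscreteWithin (sphere (0 : ℂ) |r|)] fun z => min (f z) (g z) := by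
    filter_upwards [h] with z hz using (min_eq_left hz).symm
  rw [circleAverage_congr_codiscreteWithin e hr]
  exact circleAverage_mono (hf.congr_codiscreteWithin e) hg fun x _ => min_le_right _ _

lemma norm_avg_le {F : ℂ → ℂ} {G : ℂ → ℝ} {R : ℝ} (hG : CircleIntegrable G 0 R)
    (h : ∀ z ∈ sphere (0 : ℂ) |R|, ‖F z‖ ≤ G z) :
    ‖circleAverage F 0 R‖ ≤ circleAverage G 0 R := by
  rw [circleAverage_def, circleAverage_def, norm_smul, Real.norm_of_nonneg (by positivity),
    smul_eq_mul]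
  gcongr
  exact intervalIntegral.norm_integral_le_of_norm_le two_pi_pos.le
    (Eventually.of_forall fun θ _ => h _ (circleMap_mem_sphere' 0 R θ)) hG

/-- The logarithmic derivative of a function without zeros. -/
lemma zero_free {g : ℂ → ℂ} {R : ℝ} (hR : 0 < R) (hg : AnalyticOnNhd ℂ g (closedBall 0 R))
    (h0 : ∀ z ∈ closedBall (0 : ℂ) R, g z ≠ 0) :
    ∃ Φ : ℂ → ℂ, AnalyticOnNhd ℂ Φ (ball 0 R) ∧
      (Φ 0).re = circleAverage (fun z => |Real.log ‖g z‖|) 0 R ∧
      ∀ w ∈ ball (0 : ℂ) R, ‖logDeriv g w‖ * (R ^ 2 - ‖w‖ ^ 2) ≤ 2 * R * (Φ w).re := by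
  have hs : sphere (0 : ℂ) |R| ⊆ closedBall 0 R := by
    rw [abs_of_pos hR]; exact sphere_subset_closedBall
  have iu : CircleIntegrable (fun z => Real.log ‖g z‖) 0 R :=
    (hg.mono hs).meromorphicOn.circleIntegrable_log_norm
  have ia : CircleIntegrable (fun z => |Real.log ‖g z‖|) 0 R := iu.abs
  have cx : ∀ {u : ℂ → ℝ}, CircleIntegrable u 0 R → CircleIntegrable (fun ζ => (u ζ : ℂ)) 0 R := by
    intro u hu
    simp only [CircleIntegrable, intervalIntegrable_iff] at hu ⊢
    exact Complex.ofRealCLM.integrable_comp hu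
  set H : ℂ → ℂ := fun w => circleAverage
    (fun ζ => herglotzRieszKernel 0 w ζ • ((Real.log ‖g ζ‖ : ℝ) : ℂ)) 0 R with hH
  have hHre : ∀ w ∈ ball (0 : ℂ) R, (H w).re = Real.log ‖g w‖ := fun w hw => by
    rw [hH, re_circleAverage_herglotzRieszKernel_smul iu hw]
    exact InnerProductSpace.HarmonicOnNhd.circleAverage_re_herglotzRieszKernel_smul
      (f := fun z => Real.log ‖g z‖) (fun x hx => (hg x hx).harmonicAt_log_norm (h0 x hx)) hw
  have hHd := differentiableOn_circleAverage_herglotzRieszKernel_smul (cx iu)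
  have hgd : DifferentiableOn ℂ g (ball 0 R) := (hg.mono ball_subset_closedBall).differentiableOn
  have hn : ∀ w ∈ ball (0 : ℂ) R, ‖g w * cexp (-H w)‖ = 1 := fun w hw => by
    rw [norm_mul, Complex.norm_exp, neg_re, hHre w hw, Real.exp_neg,
      Real.exp_log (norm_pos_iff.2 (h0 w (ball_subset_closedBall hw))),
      mul_inv_cancel₀ (norm_ne_zero_iff.2 (h0 w (ball_subset_closedBall hw)))]
  have hc := Complex.eqOn_of_isPreconnected_of_isMaxOn_norm (f := fun w => g w * cexp (-H w))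
    (convex_ball (0 : ℂ) R).isPreconnected isOpen_ball (hgd.mul hHd.neg.cexp) (mem_ball_self hR)
    (fun w hw => by simp only [Function.comp, mem_ofPred_eq, hn w hw, hn 0 (mem_ball_self hR), le_rfl])
  refine ⟨fun w => circleAverage
    (fun ζ => herglotzRieszKernel 0 w ζ • ((|Real.log ‖g ζ‖| : ℝ) : ℂ)) 0 R,
    analyticOnNhd_circleAverage_herglotzRieszKernel_smul (cx ia), ?_, fun w hw => ?_⟩
  · rw [re_circleAverage_herglotzRieszKernel_smul ia (mem_ball_self hR)]
    refine circleAverage_congr_sphere fun z hz => ?_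
    have : z ≠ 0 := by
      rintro rfl
      simp at hz
      exact hR.ne' (abs_eq_zero.1 hz.symm)
    simp [herglotzRieszKernel_def, div_self this]
  · have hd := hasDerivAt_circleAverage_herglotzRieszKernel_smul (cx iu) hw
    have hgw := (hg w (ball_subset_closedBall hw)).differentiableAt.hasDerivAt
    have h1 := (hgw.mul hd.neg.cexp).deriv
    have h2 : deriv (fun w => g w * cexp (-H w)) w = 0 := by
      rw [(hc.eventuallyEq_of_mem (isOpen_ball.mem_nhds hw)).deriv_eq]
      exact deriv_const _ _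
    have h3 : logDeriv g w = circleAverage
        (fun ζ => (2 * ζ / (ζ - w) ^ 2) • ((Real.log ‖g ζ‖ : ℝ) : ℂ)) 0 R := by
      rw [logDeriv_apply, div_eq_iff (h0 w (ball_subset_closedBall hw))]
      have h4 := h1.symm.trans h2
      have h5 := Complex.exp_ne_zero (-H w)
      apply mul_right_cancel₀ h5
      linear_combination h4
    have hw' : ‖w‖ < R := mem_ball_zero_iff.1 hw
    have hp : 0 < R ^ 2 - ‖w‖ ^ 2 := by nlinarith [norm_nonneg w]
    have ik : CircleIntegrable ((Complex.re ∘ herglotzRieszKernel 0 w) •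
        fun z => |Real.log ‖g z‖|) 0 R :=
      ia.continuousOn_smul (Complex.continuous_re.comp_continuousOn
        (continuousOn_herglotzRieszKernel_sphere hw))
    rw [re_circleAverage_herglotzRieszKernel_smul ia hw, ← le_div_iff₀ hp, h3,
      mul_div_right_comm, ← smul_eq_mul, ← circleAverage_smul]
    refine norm_avg_le ik.const_smul fun z hz => ?_
    rw [abs_of_pos hR, mem_sphere_zero_iff_norm] at hz
    rw [← poissonKernel_eq_re_herglotzRieszKernel]
    simp only [Pi.smul_apply, Pi.mul_apply, smul_eq_mul, poissonKernel_def, sub_zero, norm_mul,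
      norm_div, norm_pow, hz, Complex.norm_ofNat, Complex.norm_real, Real.norm_eq_abs]
    rw [← mul_assoc, div_mul_div_comm, mul_comm (R ^ 2 - ‖w‖ ^ 2), mul_div_mul_right _ _ hp.ne']

lemma int_near (ρ r : ℝ) (a : ℂ) : CircleIntegrable (fun z => log⁺ (ρ / ‖z - a‖)) 0 r := by
  have : MeromorphicOn (fun z : ℂ => (ρ : ℂ) / (z - a)) (sphere 0 |r|) := fun z _ => by fun_prop
  convert this.circleIntegrable_posLog_norm using 2 with z
  rw [norm_div, Complex.norm_real, Real.norm_eq_abs, ← posLog_abs, abs_div, abs_norm]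

/-- The contribution of a zero close to the circle. -/
lemma avg_near {ρ r : ℝ} (hρ : 0 < ρ) (hr : 0 < r) (a : ℂ) :
    circleAverage (fun z => log⁺ (ρ / ‖z - a‖)) 0 r ≤ if |‖a‖ - r| < ρ then 2 * ρ / r else 0 := by
  split_ifs with h
  · obtain ⟨e, he, hea⟩ : ∃ e : ℂ, ‖e‖ = 1 ∧ a = ‖a‖ * e :=
      ⟨cexp (arg a * I), by simp, (norm_mul_exp_arg_mul_I a).symm⟩
    set a' : ℂ := ((r + 2 * ρ : ℝ) : ℂ) * e with ha'
    have hn : ‖a'‖ = r + 2 * ρ := by
      rw [ha', norm_mul, he, mul_one, Complex.norm_real, Real.norm_of_nonneg (by positivity)]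
    have i1 := circleIntegrable_log_norm_sub_const (a := a') (c := 0) r
    have i2 := circleIntegrable_log_norm_sub_const (a := a) (c := 0) r
    refine (avg_mono_ae hr.ne' (int_near ρ r a) (i1.sub i2) ?_).trans ?_
    · filter_upwards [compl_singleton_mem_codiscreteWithin a, self_mem_codiscreteWithin _]
        with z hz hz'
      rw [abs_of_pos hr, mem_sphere_zero_iff_norm] at hz'
      have h1 : 0 < ‖z - a‖ := norm_pos_iff.2 (sub_ne_zero.2 hz)
      have h2 : ρ ≤ ‖z - a'‖ := by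
        have := norm_sub_norm_le a' z
        rw [norm_sub_rev] at this
        linarith
      have h3 : ‖z - a‖ ≤ ‖z - a'‖ := by
        have k : ∀ s : ℝ, ‖z - s * e‖ ^ 2 = r ^ 2 - 2 * s * (z * conj e).re + s ^ 2 := fun s => by
          rw [Complex.sq_norm, normSq_sub, normSq_mul, ← Complex.sq_norm, ← Complex.sq_norm,
            ← Complex.sq_norm, hz', he, map_mul, conj_ofReal, mul_left_comm, re_ofReal_mul]
          simp
          ring
        have k2 : (z * conj e).re ≤ r := by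
          refine (re_le_norm _).trans ?_
          rw [norm_mul, RCLike.norm_conj, he, hz', mul_one]
        have k3 := k ‖a‖
        rw [← hea] at k3
        rw [← sq_le_sq₀ (norm_nonneg _) (norm_nonneg _), k3, ha', k]
        obtain ⟨h4, h5⟩ := abs_lt.1 h
        nlinarith
      rw [Pi.sub_apply, ← Real.log_div (by linarith) h1.ne', posLog_apply]
      refine max_le (Real.log_nonneg ((one_le_div h1).2 h3)) (Real.log_le_log (by positivity) ?_)
      gcongr
    · rw [circleAverage_sub i1 i2, circleAverage_log_norm_sub_const_eq_log_radius_add_posLog hr.ne',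
        circleAverage_log_norm_sub_const_eq_log_radius_add_posLog hr.ne', zero_sub, norm_neg, hn]
      have h1 : r⁻¹ * (r + 2 * ρ) = 1 + 2 * ρ / r := by field_simp
      have h2 : 0 < 2 * ρ / r := by positivity
      rw [h1, posLog_eq_log (by rw [abs_of_pos (by positivity)]; linarith)]
      have := Real.log_le_sub_one_of_pos (show 0 < 1 + 2 * ρ / r by positivity)
      have := posLog_nonneg (x := r⁻¹ * ‖0 - a‖)
      linarith
  · refine circleAverage_mono_on_of_le_circle (int_near ρ r a) fun z hz => le_of_eq ?_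
    rw [abs_of_pos hr, mem_sphere_zero_iff_norm] at hz
    have h1 : ρ ≤ ‖z - a‖ := by
      have := abs_norm_sub_norm_le a z
      rw [norm_sub_rev, hz] at this
      linarith [not_lt.1 h]
    rw [posLog_eq_zero_iff, abs_of_nonneg (by positivity), div_le_one (by linarith)]
    exact h1

/-- The Poisson kernel with pole at the reflected point. -/
noncomputable def pk (R : ℝ) (a z : ℂ) : ℝ := ((R ^ 2 + conj a * z) / (R ^ 2 - conj a * z)).re

lemma pk_ne {R : ℝ} {a z : ℂ} (ha : ‖a‖ < R) (hz : ‖z‖ ≤ R) : (R : ℂ) ^ 2 - conj a * z ≠ 0 := by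
  intro h
  have := congrArg norm (sub_eq_zero.1 h)
  rw [norm_pow, norm_mul, RCLike.norm_conj, Complex.norm_real, Real.norm_eq_abs, sq_abs] at this
  nlinarith [norm_nonneg a, norm_nonneg z]

lemma pk_eq (R : ℝ) (a z : ℂ) :
    pk R a z = (R ^ 4 - ‖a‖ ^ 2 * ‖z‖ ^ 2) / ‖(R : ℂ) ^ 2 - conj a * z‖ ^ 2 := by
  have := congrFun (poissonKernel_eq_re_herglotzRieszKernel (c := 0) (w := conj a * z)) (R ^ 2)
  simp only [poissonKernel_def, sub_zero, Function.comp, herglotzRieszKernel_def] at this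
  rw [pk, ← this, norm_pow, norm_mul, RCLike.norm_conj, Complex.norm_real, Real.norm_eq_abs, sq_abs]
  ring

lemma avg_pk {R r : ℝ} {a : ℂ} (ha : ‖a‖ < R) (hr0 : 0 < r) (hr : r ≤ R) :
    CircleIntegrable (pk R a) 0 r ∧ circleAverage (pk R a) 0 r = 1 := by
  have hR : 0 < R := hr0.trans_le hr
  have h : InnerProductSpace.HarmonicOnNhd (pk R a) (closedBall 0 |r|) := fun z hz => by
    rw [abs_of_pos hr0, mem_closedBall_zero_iff] at hz
    have := pk_ne ha (hz.trans hr)
    exact AnalyticAt.harmonicAt_re (f := fun z => (R ^ 2 + conj a * z) / (R ^ 2 - conj a * z))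
      (by fun_prop (disch := assumption))
  refine ⟨(h.continuousOn.mono sphere_subset_closedBall).circleIntegrable', ?_⟩
  rw [h.circleAverage_eq, pk]
  simp [hR.ne']

/-- The logarithmic derivative of a Blaschke factor. -/
noncomputable def bk (R : ℝ) (a z : ℂ) : ℂ := 1 / (z - a) + conj a / (R ^ 2 - conj a * z)

lemma pk_nonneg {R : ℝ} {a z : ℂ} (ha : ‖a‖ < R) (hz : ‖z‖ ≤ R) : 0 ≤ pk R a z := by
  rw [pk_eq]
  refine div_nonneg ?_ (by positivity)
  have : ‖a‖ ^ 2 * ‖z‖ ^ 2 ≤ R ^ 2 * R ^ 2 := by gcongr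
  nlinarith

lemma bk_le {R r : ℝ} {a z : ℂ} (ha : ‖a‖ < R) (hz : ‖z‖ = r) (h1 : 1 / 2 ≤ r) (h2 : r < R)
    (h3 : R ≤ 1) (hza : z ≠ a) :
    (R - r) * ‖bk R a z‖ ≤ 4 * (R - ‖a‖) * pk R a z * (1 + 2 * ((R - r) / ‖z - a‖)) := by
  have n1 := pk_ne ha (hz.trans_le h2.le)
  have n2 : z - a ≠ 0 := sub_ne_zero.2 hza
  have e : bk R a z = ((R ^ 2 - ‖a‖ ^ 2 : ℝ) : ℂ) / ((z - a) * (R ^ 2 - conj a * z)) := by
    rw [bk, div_add_div _ _ n2 n1]
    congr 1
    push_cast
    rw [← conj_mul']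
    ring
  have a0 := norm_nonneg a
  have p1 : 0 < ‖z - a‖ := norm_pos_iff.2 n2
  have p2 : 0 < ‖(R : ℂ) ^ 2 - conj a * z‖ := norm_pos_iff.2 n1
  have p3 : ‖(R : ℂ) ^ 2 - conj a * z‖ ≤ ‖z - a‖ + 2 * (R - r) := by
    have : (R : ℂ) ^ 2 - conj a * z = ((R ^ 2 - r ^ 2 : ℝ) : ℂ) + conj (z - a) * z := by
      rw [← hz]
      push_cast
      rw [← conj_mul', map_sub]
      ring
    rw [this]
    refine (norm_add_le _ _).trans ?_
    rw [norm_mul, RCLike.norm_conj, hz, Complex.norm_real, Real.norm_of_nonneg (by nlinarith)]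
    nlinarith
  rw [e, pk_eq, norm_div, norm_mul, Complex.norm_real, Real.norm_of_nonneg (by nlinarith), hz]
  generalize ‖(R : ℂ) ^ 2 - conj a * z‖ = N at *
  generalize ‖z - a‖ = d at *
  generalize ‖a‖ = s at *
  have q1 : (R - r) * (R + s) ≤ 4 * (R ^ 4 - s ^ 2 * r ^ 2) := by
    have : s ^ 2 * r ^ 2 ≤ R ^ 2 * r ^ 2 := by gcongr
    have h4 : 1 / 2 ≤ R * (R + r) := by nlinarith
    have h5 : R ^ 4 - R ^ 2 * r ^ 2 = (R - r) * (R * (R * (R + r))) := by ring
    have h6 : (R - r) * (R + s) ≤ (R - r) * (4 * (R * (R * (R + r)))) := by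
      gcongr
      nlinarith
    linarith
  rw [show (R - r) * ((R ^ 2 - s ^ 2) / (d * N)) = (R - s) * ((R - r) * (R + s)) / N ^ 2 * (N / d) by
    field_simp; ring, show 4 * (R - s) * ((R ^ 4 - s ^ 2 * r ^ 2) / N ^ 2) * (1 + 2 * ((R - r) / d)) =
      (R - s) * (4 * (R ^ 4 - s ^ 2 * r ^ 2)) / N ^ 2 * ((d + 2 * (R - r)) / d) by field_simp]
  have : 0 ≤ (R - r) * (R + s) := by nlinarith
  gcongr
  exact div_nonneg (mul_nonneg (by linarith) (by linarith)) (by positivity)

end Pool.Agent.Work.MP_6ac3f6_an
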