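import Pool.Agent.Work.MP_6ac3f6_an.Up2
import Pool.Agent.Work.MP_6ac3f6_an.Nev

-- merged part: Pool.Agent.Work.MP_6ac3f6_an.Up3
section
/-!
# Growth classes in the unit disc and the lemma on the logarithmic derivative
-/

namespace Pool.Agent.Work.MP_6ac3f6_an

open Complex Metric Set Filter Topology Real MeasureTheory

/-- The comparison function. -/
noncomputable def LL (r : ℝ) : ℝ := -Real.log (1 - r)

/-- Radii close to one. -/
abbrev FF : Filter ℝ := 𝓝[<] (1 : ℝ)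

/-- Almost all points of the disc. -/
noncomputable abbrev DD : Filter ℂ := codiscreteWithin (ball (0 : ℂ) 1)

/-- Meromorphic in the disc. -/
abbrev Mer (g : ℂ → ℂ) : Prop := MeromorphicOn g (ball 0 1)

/-- The weighted proximity function. -/
noncomputable def mk (g : ℂ → ℂ) (k : ℕ) (r : ℝ) : ℝ :=
  circleAverage (fun z => log⁺ ((1 - r) ^ k * ‖g z‖)) 0 r

/-- Small functions of the radius. -/
def Sm (φ : ℝ → ℝ) : Prop := ∀ ε > 0, ∀ᶠ r in FF, φ r ≤ ε * LL r

/-- Functions which are in the mean of size at most `(1 - r) ^ (-k)`. -/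
def Tame (g : ℂ → ℂ) (k : ℕ) : Prop := Mer g ∧ Sm (mk g k)

/-- Functions with a proximity function of logarithmic growth. -/
def Bd (g : ℂ → ℂ) : Prop := Mer g ∧ ∃ C : ℝ, ∀ᶠ r in FF, mk g 0 r ≤ C * LL r

lemma ev_rng : ∀ᶠ r in FF, 1 / 2 ≤ r ∧ r < 1 := by
  filter_upwards [Ico_mem_nhdsLT (show (1 / 2 : ℝ) < 1 by norm_num)] with r hr using hr

lemma LL_top : Tendsto LL FF atTop := by
  refine tendsto_neg_atBot_atTop.comp (Real.tendsto_log_nhdsGT_zero.comp ?_)
  refine tendsto_nhdsWithin_iff.2 ⟨?_, ev_rng.mono fun r hr => sub_pos.2 hr.2⟩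
  have : Tendsto (fun r : ℝ => 1 - r) (𝓝 1) (𝓝 (1 - 1)) := tendsto_const_nhds.sub tendsto_id
  rw [sub_self] at this
  exact this.mono_left nhdsWithin_le_nhds

lemma Sm.const (C : ℝ) : Sm fun _ => C := fun _ hε =>
  (LL_top.const_mul_atTop hε).eventually_ge_atTop C

lemma Sm.add {φ ψ : ℝ → ℝ} (h1 : Sm φ) (h2 : Sm ψ) : Sm fun r => φ r + ψ r := fun ε hε => by
  filter_upwards [h1 (ε / 2) (by positivity), h2 (ε / 2) (by positivity)] with r a b
  linarith only [a, b]

lemma Sm.mono {φ ψ : ℝ → ℝ} (h2 : Sm ψ) (h : ∀ r, 1 / 2 ≤ r → r < 1 → φ r ≤ ψ r) : Sm φ :=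
  fun ε hε => by
    filter_upwards [h2 ε hε, ev_rng] with r a b using (h r b.1 b.2).trans a

lemma sph_sub {r : ℝ} (h1 : 1 / 2 ≤ r) (h2 : r < 1) : sphere (0 : ℂ) |r| ⊆ ball 0 1 := by
  rw [abs_of_pos (by linarith only [h1, h2])]
  exact sphere_subset_ball h2

lemma avg_le {F G : ℂ → ℝ} {r : ℝ} (h1 : 1 / 2 ≤ r) (h2 : r < 1) (hF : CircleIntegrable F 0 r)
    (hG : CircleIntegrable G 0 r) (h : ∀ᶠ z in DD, F z ≤ G z) :
    circleAverage F 0 r ≤ circleAverage G 0 r :=
  avg_mono_ae (by linarith only [h1, h2]) hF hG (h.filter_mono (codiscreteWithin_mono (sph_sub h1 h2)))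

variable {f g : ℂ → ℂ} {j k : ℕ} {r : ℝ}

lemma int_mk (hg : Mer g) (h1 : 1 / 2 ≤ r) (h2 : r < 1) (c : ℝ) :
    CircleIntegrable (fun z => log⁺ (c * ‖g z‖)) 0 r := int_wt (hg.mono_set (sph_sub h1 h2)) c

lemma int_log (hg : Mer g) (h1 : 1 / 2 ≤ r) (h2 : r < 1) :
    CircleIntegrable (fun z => Real.log ‖g z‖) 0 r :=
  (hg.mono_set (sph_sub h1 h2)).circleIntegrable_log_norm

lemma mk_congr (h : f =ᶠ[DD] g) (h1 : 1 / 2 ≤ r) (h2 : r < 1) : mk f k r = mk g k r := by
  refine circleAverage_congr_codiscreteWithin ?_ (by linarith only [h1, h2])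
  filter_upwards [h.filter_mono (codiscreteWithin_mono (sph_sub h1 h2))] with z hz
  rw [hz]

lemma mk_mul (hf : Mer f) (hg : Mer g) (h1 : 1 / 2 ≤ r) (h2 : r < 1) :
    mk (f * g) (j + k) r ≤ mk f j r + mk g k r := by
  unfold mk
  rw [← circleAverage_fun_add (int_mk hf h1 h2 _) (int_mk hg h1 h2 _)]
  refine circleAverage_mono (int_mk (hf.mul hg) h1 h2 _)
    ((int_mk hf h1 h2 _).add (int_mk hg h1 h2 _)) fun z _ => ?_
  rw [Pi.mul_apply, norm_mul, pow_add, mul_mul_mul_comm]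
  exact posLog_mul

lemma mk_add (hf : Mer f) (hg : Mer g) (h1 : 1 / 2 ≤ r) (h2 : r < 1) :
    mk (f + g) k r ≤ Real.log 2 + (mk f k r + mk g k r) := by
  unfold mk
  have i := (int_mk hf h1 h2 ((1 - r) ^ k)).add (int_mk hg h1 h2 ((1 - r) ^ k))
  rw [← circleAverage_add (int_mk hf h1 h2 _) (int_mk hg h1 h2 _),
    ← circleAverage_const (Real.log 2) 0 r, ← circleAverage_add (circleIntegrable_const _ _ _) i]
  refine circleAverage_mono (int_mk (hf.add hg) h1 h2 _) ((circleIntegrable_const _ _ _).add i)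
    fun z _ => ?_
  have y0 : 0 ≤ (1 - r) ^ k := pow_nonneg (by linarith only [h2]) _
  refine (posLog_le_posLog (by positivity)
    (mul_le_mul_of_nonneg_left (norm_add_le (f z) (g z)) y0)).trans ?_
  rw [mul_add]
  exact posLog_add.trans (le_of_eq (add_assoc _ _ _))

lemma mk_scale (hg : Mer g) (h1 : 1 / 2 ≤ r) (h2 : r < 1) {c d e : ℝ} (hc : 0 ≤ c)
    (h : c ≤ e * d) : circleAverage (fun z => log⁺ (c * ‖g z‖)) 0 r ≤
      log⁺ e + circleAverage (fun z => log⁺ (d * ‖g z‖)) 0 r := by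
  rw [← circleAverage_const (log⁺ e) 0 r,
    ← circleAverage_add (circleIntegrable_const _ _ _) (int_mk hg h1 h2 _)]
  refine circleAverage_mono (int_mk hg h1 h2 _)
    ((circleIntegrable_const _ _ _).add (int_mk hg h1 h2 _)) fun z _ => ?_
  refine (posLog_le_posLog (by positivity)
    (mul_le_mul_of_nonneg_right h (norm_nonneg _))).trans ?_
  rw [mul_assoc]
  exact posLog_mul

lemma posLog_wt (h1 : 1 / 2 ≤ r) (h2 : r < 1) (k : ℕ) : log⁺ (((1 - r) ^ k)⁻¹) = k * LL r := by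
  rw [← inv_pow, posLog_pow, posLog_eq_log, Real.log_inv, LL]
  rw [abs_of_pos (inv_pos.2 (by linarith only [h2])), one_le_inv₀ (by linarith only [h2])]
  linarith only [h1, h2]

lemma mk_zero_le (hg : Mer g) (h1 : 1 / 2 ≤ r) (h2 : r < 1) (k : ℕ) :
    mk g 0 r ≤ k * LL r + mk g k r := by
  rw [← posLog_wt h1 h2]
  exact mk_scale hg h1 h2 (by simp) (by
    rw [inv_mul_cancel₀ (pow_ne_zero _ (by linarith only [h2])), pow_zero])

lemma Tame.mul (hf : Tame f j) (hg : Tame g k) : Tame (f * g) (j + k) :=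
  ⟨hf.1.mul hg.1, (hf.2.add hg.2).mono fun _ => mk_mul hf.1 hg.1⟩

lemma Tame.add (hf : Tame f k) (hg : Tame g k) : Tame (f + g) k :=
  ⟨hf.1.add hg.1, ((Sm.const _).add (hf.2.add hg.2)).mono fun _ => mk_add hf.1 hg.1⟩

lemma Tame.congr (hf : Tame f k) (h : f =ᶠ[DD] g) : Tame g k :=
  ⟨hf.1.congr_codiscreteWithin h isOpen_ball, hf.2.mono fun _ h1 h2 => (mk_congr h h1 h2).ge⟩

lemma Tame.mono (hf : Tame f j) (h : j ≤ k) : Tame f k :=
  ⟨hf.1, hf.2.mono fun r h1 h2 => by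
    have := mk_scale hf.1 h1 h2 (c := (1 - r) ^ k) (d := (1 - r) ^ j) (e := 1)
      (pow_nonneg (by linarith only [h2]) _)
      (by rw [one_mul]; exact pow_le_pow_of_le_one (by linarith only [h2]) (by linarith only [h1, h2]) h)
    rwa [posLog_one, zero_add] at this⟩

lemma Tame.const (c : ℂ) : Tame (fun _ => c) 0 :=
  ⟨MeromorphicOn.const c, (Sm.const (log⁺ ‖c‖)).mono fun r _ _ => by
    simp [mk, circleAverage_const]⟩

lemma Tame.cmul (hf : Tame f k) (c : ℂ) : Tame (fun z => c * f z) k := by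
  have := (Tame.const c).mul hf
  rwa [zero_add] at this

lemma Tame.pow (hf : Tame f k) (n : ℕ) : Tame (f ^ n) (n * k) := by
  induction n with
  | zero => rw [pow_zero, zero_mul]; exact Tame.const 1
  | succ n ih => rw [pow_succ, add_mul, one_mul]; exact ih.mul hf

lemma Tame.root {n : ℕ} (hf : Mer f) (hn : 0 < n) (h : Tame (f ^ n) (n * k)) : Tame f k :=
  ⟨hf, h.2.mono fun r h1 h2 => by
    refine circleAverage_mono (int_mk hf h1 h2 _) (int_mk h.1 h1 h2 _) fun z _ => ?_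
    rw [Pi.pow_apply, norm_pow, mul_comm n, pow_mul, ← mul_pow, posLog_pow]
    exact le_mul_of_one_le_left posLog_nonneg (by exact_mod_cast hn)⟩

lemma Tame.bd (hf : Tame f k) : Bd f :=
  ⟨hf.1, k + 1, by
    filter_upwards [hf.2 1 one_pos, ev_rng] with r a b
    linarith only [a, hf, b, mk_zero_le hf.1 b.1 b.2 k]⟩

lemma Bd.mul (hf : Bd f) (hg : Bd g) : Bd (f * g) := by
  obtain ⟨hf, C, h⟩ := hf
  obtain ⟨hg, C', h'⟩ := hg
  refine ⟨hf.mul hg, C + C', ?_⟩
  filter_upwards [h, h', ev_rng] with r a b c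
  linarith only [a, b, hf, hg, c, mk_mul (j := 0) (k := 0) hf hg c.1 c.2]

lemma Bd.add (hf : Bd f) (hg : Bd g) : Bd (f + g) := by
  obtain ⟨hf, C, h⟩ := hf
  obtain ⟨hg, C', h'⟩ := hg
  refine ⟨hf.add hg, C + C' + 1, ?_⟩
  filter_upwards [h, h', ev_rng, Sm.const (Real.log 2) 1 one_pos] with r a b c d
  linarith only [a, b, d, hf, hg, c, mk_add (k := 0) hf hg c.1 c.2]

lemma Bd.congr (hf : Bd f) (h : f =ᶠ[DD] g) : Bd g := by
  obtain ⟨hf, C, h'⟩ := hf
  refine ⟨hf.congr_codiscreteWithin h isOpen_ball, C, ?_⟩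
  filter_upwards [h', ev_rng] with r a b
  rwa [← mk_congr h b.1 b.2]

lemma DD_iff {p : ℂ → Prop} : (∀ᶠ z in DD, p z) ↔ ∀ x ∈ ball (0 : ℂ) 1, ∀ᶠ z in 𝓝[≠] x, p z := by
  rw [Filter.Eventually, mem_codiscreteWithin_iff_forall_mem_nhdsNE]
  refine forall₂_congr fun x hx => ⟨fun h => ?_, fun h => mem_of_superset h subset_union_left⟩
  filter_upwards [h, mem_nhdsWithin_of_mem_nhds (isOpen_ball.mem_nhds hx)] with z hz hz'
  exact hz.resolve_right fun h => h hz'

lemma Mer.nz_iff (hg : Mer g) :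
    (∀ᶠ z in DD, g z ≠ 0) ↔ ∀ x ∈ ball (0 : ℂ) 1, meromorphicOrderAt g x ≠ ⊤ := by
  rw [DD_iff]
  exact forall₂_congr fun x hx => (meromorphicOrderAt_ne_top_iff_eventually_ne_zero (hg x hx)).symm

lemma Mer.dich (hg : Mer g) : (∀ᶠ z in DD, g z ≠ 0) ∨ ∀ᶠ z in DD, g z = 0 := by
  rw [hg.nz_iff, ← hg.exists_meromorphicOrderAt_ne_top_iff_forall_mem
    ((convex_ball (0 : ℂ) 1).isConnected (nonempty_ball.2 one_pos)), DD_iff]
  by_contra h
  push Not at h
  obtain ⟨h, x, hx, h'⟩ := h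
  exact h' (by simpa using meromorphicOrderAt_eq_top_iff.1 (h x hx))

lemma avg_abs (hg : Mer g) (h1 : 1 / 2 ≤ r) (h2 : r < 1) :
    circleAverage (fun z => |Real.log ‖g z‖|) 0 r =
      2 * mk g 0 r - circleAverage (fun z => Real.log ‖g z‖) 0 r ∧
    circleAverage (fun z => Real.log ‖g z‖) 0 r ≤ mk g 0 r := by
  have i := int_mk hg h1 h2 ((1 - r) ^ 0)
  constructor
  · rw [mk, ← smul_eq_mul, ← circleAverage_smul, ← circleAverage_sub i.const_smul (int_log hg h1 h2)]
    congr 1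
    funext z
    simp only [Pi.sub_apply, Pi.smul_apply, pow_zero, one_mul, smul_eq_mul,
      ← half_mul_log_add_log_abs]
    ring
  · refine circleAverage_mono (int_log hg h1 h2) i fun z _ => ?_
    rw [pow_zero, one_mul]
    exact le_max_right _ _

/-- The lemma on the logarithmic derivative for holomorphic functions. -/
lemma tame_ld {a : ℂ → ℂ} (ha : AnalyticOnNhd ℂ a (ball 0 1)) (hb : Bd a) :
    Tame (logDeriv a) 1 := by
  have hm : Mer a := ha.meromorphicOn
  rcases hm.dich with hz | hz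
  swap
  · refine ((Tame.const 0).mono zero_le_one).congr ?_
    filter_upwards [hz] with z h
    rw [logDeriv_apply, h, div_zero]
  have hne := hm.nz_iff.1 hz
  obtain ⟨C₀, hJ⟩ := jensen_lower hm fun z hz => (ha z hz).meromorphicOrderAt_nonneg
  obtain ⟨-, C, hC⟩ := hb
  obtain ⟨r₀, hr₀, hC⟩ := mem_nhdsLT_iff_exists_Ioo_subset.1 hC
  refine ⟨hm.logDeriv, fun ε hε => ?_⟩
  set δ := min (1 / 2) (ε / (2 * (16 * |C| + 1))) with hδ
  have δ0 : 0 < δ := lt_min one_half_pos (by positivity)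
  have δ1 : δ * (16 * |C| + 1) ≤ ε / 2 := by
    rw [← le_div_iff₀ (by positivity), div_div]
    exact min_le_right _ _
  filter_upwards [ev_rng, Ioo_mem_nhdsLT hr₀, Sm.const (log⁺ 2 + log⁺ (δ⁻¹ * (1 + 2 / δ)) +
    δ * (16 * |C| * Real.log 4 + 14 * C₀)) (ε / 2) (by positivity)] with r ⟨h1, h2⟩ h3 h4
  have sub : closedBall (0 : ℂ) ((3 + r) / 4) ⊆ ball 0 1 := closedBall_subset_ball (by linarith only [h2])
  have fin := (MeromorphicOn.divisor a (closedBall 0 ((3 + r) / 4))).finiteSupport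
    (isCompact_closedBall _ _)
  obtain ⟨R, ⟨hR1, hR2⟩, hR3⟩ := (Ioo_infinite (show (1 + r) / 2 < (3 + r) / 4 by linarith only [h2])
    ).exists_notMem_finite (fin.image norm)
  have sub' : closedBall (0 : ℂ) R ⊆ ball 0 1 := closedBall_subset_ball (by linarith only [hR1, hR2])
  obtain ⟨s, hs, h⟩ := ld_core h1 (show r < R by linarith only [hR1, hR2]) (by linarith only [hR1, hR2]) δ0 (min_le_left _ _)
    (ha.mono sub') (fun u hu => hne u (sub' hu)) fun z hz h0 => hR3 ⟨z, by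
      have m : z ∈ closedBall (0 : ℂ) ((3 + r) / 4) :=
        closedBall_subset_closedBall hR2.le (sphere_subset_closedBall hz)
      rw [Function.mem_support, MeromorphicOn.divisor_apply (hm.mono_set sub) m, Ne,
        WithTop.untop₀_eq_zero, not_or]
      exact ⟨fun k => ((ha z (sub m)).meromorphicNFAt.meromorphicOrderAt_eq_zero_iff.1 k) h0,
        hne z (sub m)⟩, mem_sphere_zero_iff_norm.1 hz⟩
  have R1 : 1 / 2 ≤ R := by linarith only [hR1, h1]
  have R2 : R < 1 := by linarith only [hR2, h2]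
  have k1 := mk_scale (hm.logDeriv) h1 h2 (c := (1 - r) ^ 1) (d := R - r) (e := 2)
    (by linarith only [hR1, h2]) (by linarith only [hR1, h2])
  have k2 := hJ R R1 R2 s hs
  have k3 := hJ R R1 R2 ∅ (by simp)
  obtain ⟨k4, k5⟩ := avg_abs hm R1 R2
  have k6 : mk a 0 R ≤ C * LL R := hC ⟨by linarith only [h3.1, hR1, h2], R2⟩
  have L0 : 0 ≤ LL R :=
    neg_nonneg.2 (Real.log_nonpos (sub_nonneg.2 R2.le) (by linarith only [R1]))
  have L1 : 0 ≤ LL r :=
    neg_nonneg.2 (Real.log_nonpos (sub_nonneg.2 h2.le) (by linarith only [h1]))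
  have k7 : LL R ≤ LL r + Real.log 4 := by
    have := Real.log_le_log (show 0 < (1 - r) / 4 by linarith only [h2])
      (show (1 - r) / 4 ≤ 1 - R by linarith only [hR2])
    rw [Real.log_div (sub_pos.2 h2).ne' (by norm_num)] at this
    unfold LL
    linarith only [this]
  have k8 : mk a 0 R ≤ |C| * (LL r + Real.log 4) :=
    k6.trans (mul_le_mul (le_abs_self C) k7 L0 (abs_nonneg C))
  rw [Finset.sum_empty] at k3
  have k9 : δ * (2 * circleAverage (fun z => |Real.log ‖a z‖|) 0 R +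
      12 * ∑ u ∈ s, od a u * (R - ‖u‖)) ≤ δ * (16 * (|C| * (LL r + Real.log 4)) + 14 * C₀) :=
    mul_le_mul_of_nonneg_left (by linarith only [k2, k3, k4, k5, k8]) δ0.le
  have k10 : δ * (16 * |C| + 1) * LL r ≤ ε / 2 * LL r := mul_le_mul_of_nonneg_right δ1 L1
  unfold mk
  linarith only [h, h4, k1, k9, k10, mul_nonneg δ0.le L1]

end Pool.Agent.Work.MP_6ac3f6_an
end

-- merged part: Pool.Agent.Work.MP_6ac3f6_an.Up4
section
/-!
# Quotients of holomorphic functions of logarithmic growth; local expansions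
-/

namespace Pool.Agent.Work.MP_6ac3f6_an

open Complex Metric Set Filter Topology Real MeasureTheory

variable {f g a b : ℂ → ℂ}

/-- Holomorphic functions of logarithmic growth. -/
def Gr (a : ℂ → ℂ) : Prop := AnalyticOnNhd ℂ a (ball 0 1) ∧ Bd a

lemma Gr.const (c : ℂ) : Gr fun _ => c := ⟨analyticOnNhd_const, (Tame.const c).bd⟩

lemma Gr.mul (ha : Gr a) (hb : Gr b) : Gr (a * b) := ⟨ha.1.mul hb.1, ha.2.mul hb.2⟩

lemma Gr.add (ha : Gr a) (hb : Gr b) : Gr (a + b) := ⟨ha.1.add hb.1, ha.2.add hb.2⟩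

lemma DD_deriv (h : f =ᶠ[DD] g) : deriv f =ᶠ[DD] deriv g :=
  DD_iff.2 fun x hx => EventuallyEq.nhdsNE_deriv (DD_iff.1 h x hx)

lemma Gr.deriv (ha : Gr a) : Gr (deriv a) := by
  refine ⟨ha.1.deriv, ?_⟩
  rcases ha.2.1.dich with h | h
  · refine (ha.2.mul (tame_ld ha.1 ha.2).bd).congr ?_
    filter_upwards [h] with z hz
    rw [Pi.mul_apply, logDeriv_apply, mul_div_cancel₀ _ hz]
  · refine (Tame.const 0).bd.congr ?_
    filter_upwards [DD_deriv (g := fun _ => 0) h] with z hz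
    rw [hz, deriv_const]

/-- Quotients of holomorphic functions of logarithmic growth. -/
def Quo (g : ℂ → ℂ) : Prop := ∃ a b, Gr a ∧ Gr b ∧ (∀ᶠ z in DD, b z ≠ 0) ∧ a / b =ᶠ[DD] g

lemma Quo.mer (hg : Quo g) : Mer g := by
  obtain ⟨a, b, ha, hb, -, h⟩ := hg
  exact (ha.2.1.div hb.2.1).congr_codiscreteWithin h isOpen_ball

lemma Quo.congr (hf : Quo f) (h : f =ᶠ[DD] g) : Quo g := by
  obtain ⟨a, b, ha, hb, h0, e⟩ := hf
  exact ⟨a, b, ha, hb, h0, e.trans h⟩

lemma Quo.const (c : ℂ) : Quo fun _ => c :=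
  ⟨_, _, Gr.const c, Gr.const 1, by simp, Eventually.of_forall fun z => by simp⟩

lemma Quo.add (hf : Quo f) (hg : Quo g) : Quo (f + g) := by
  obtain ⟨a, b, ha, hb, h0, e⟩ := hf
  obtain ⟨a', b', ha', hb', h0', e'⟩ := hg
  refine ⟨_, _, (ha.mul hb').add (hb.mul ha'), hb.mul hb', ?_, ?_⟩
  · filter_upwards [h0, h0'] with z h h' using mul_ne_zero h h'
  · filter_upwards [h0, h0', e, e'] with z h h' k k'
    rw [Pi.add_apply, ← k, ← k']
    exact (div_add_div _ _ h h').symm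

lemma Quo.mul (hf : Quo f) (hg : Quo g) : Quo (f * g) := by
  obtain ⟨a, b, ha, hb, h0, e⟩ := hf
  obtain ⟨a', b', ha', hb', h0', e'⟩ := hg
  refine ⟨_, _, ha.mul ha', hb.mul hb', ?_, ?_⟩
  · filter_upwards [h0, h0'] with z h h' using mul_ne_zero h h'
  · filter_upwards [e, e'] with z k k'
    rw [Pi.mul_apply, ← k, ← k']
    exact mul_div_mul_comm _ _ _ _

lemma Quo.inv (hf : Quo f) : Quo f⁻¹ := by
  obtain ⟨a, b, ha, hb, h0, e⟩ := hf
  rcases ha.2.1.dich with h | h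
  · refine ⟨_, _, hb, ha, h, ?_⟩
    filter_upwards [e] with z k
    rw [Pi.inv_apply, ← k]
    exact (inv_div _ _).symm
  · refine (Quo.const 0).congr ?_
    filter_upwards [e, h] with z k k'
    rw [Pi.inv_apply, ← k, Pi.div_apply, k', zero_div, inv_zero]

lemma Quo.deriv (hf : Quo f) : Quo (deriv f) := by
  obtain ⟨a, b, ha, hb, h0, e⟩ := hf
  refine ⟨_, _, (ha.deriv.mul hb).add ((Gr.const (-1)).mul (ha.mul hb.deriv)), hb.mul hb, ?_,
    EventuallyEq.trans ?_ (DD_deriv e)⟩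
  · filter_upwards [h0] with z h using mul_ne_zero h h
  · filter_upwards [h0, self_mem_codiscreteWithin _] with z h hz
    rw [deriv_div (ha.1 z hz).differentiableAt (hb.1 z hz).differentiableAt h]
    simp only [Pi.div_apply, Pi.add_apply, Pi.mul_apply]
    ring

lemma Quo.logDeriv (hf : Quo f) : Quo (logDeriv f) :=
  (hf.deriv.mul hf.inv).congr (Eventually.of_forall fun z => by
    rw [logDeriv_apply, div_eq_mul_inv]; rfl)

/-- The lemma on the logarithmic derivative. -/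
lemma Quo.tame (hf : Quo f) : Tame (_root_.logDeriv f) 1 := by
  obtain ⟨a, b, ha, hb, h0, e⟩ := hf
  refine Tame.congr ?_ (logDeriv_congr_codiscreteWithin isOpen_ball e)
  rcases ha.2.1.dich with h | h
  · refine ((tame_ld ha.1 ha.2).add ((tame_ld hb.1 hb.2).cmul (-1))).congr ?_
    filter_upwards [h0, h, self_mem_codiscreteWithin _] with z k k' hz
    rw [show a / b = fun z => a z / b z from rfl,
      logDeriv_div z k' k (ha.1 z hz).differentiableAt (hb.1 z hz).differentiableAt, Pi.add_apply]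
    ring
  · refine ((Tame.const 0).mono zero_le_one).congr ?_
    filter_upwards [h] with z k
    rw [logDeriv_apply, Pi.div_apply, k, zero_div, div_zero]

lemma exists_nf (hg : Mer g) (h0 : ∀ x ∈ ball (0 : ℂ) 1, 0 ≤ meromorphicOrderAt g x) :
    ∃ a, AnalyticOnNhd ℂ a (ball 0 1) ∧ g =ᶠ[DD] a :=
  ⟨toMeromorphicNFOn g (ball 0 1), fun x hx =>
    (meromorphicNFOn_toMeromorphicNFOn g _ hx).meromorphicOrderAt_nonneg_iff_analyticAt.1
      (by rw [meromorphicOrderAt_toMeromorphicNFOn hg hx]; exact h0 x hx),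
    toMeromorphicNFOn_eqOn_codiscrete hg⟩

lemma const_of_ld (hg : Mer g) (h0 : ∀ᶠ z in DD, g z ≠ 0) (h : ∀ᶠ z in DD, logDeriv g z = 0) :
    ∃ c : ℂ, ∀ᶠ z in DD, g z = c := by
  obtain ⟨a, ha, e⟩ := exists_nf hg fun x hx => by
    by_contra hn
    have := meromorphicOrderAt_logDeriv_eq_neg_one (hg x hx) (fun k => hn k.ge)
      (hg.nz_iff.1 h0 x hx)
    rw [meromorphicOrderAt_eq_top_iff.2 (DD_iff.1 h x hx)] at this
    exact absurd this (by decide)
  have h1 : ∀ᶠ z in DD, deriv a z = 0 := by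
    filter_upwards [h0, h, DD_deriv e] with z k1 k2 k3
    rw [logDeriv_apply, div_eq_zero_iff] at k2
    rw [← k3, k2.resolve_right k1]
  have h2 : EqOn (deriv a) 0 (ball 0 1) := fun x hx =>
    tendsto_nhds_unique ((ha.deriv x hx).continuousAt.tendsto.mono_left nhdsWithin_le_nhds)
      (tendsto_const_nhds.congr' (EventuallyEq.symm (DD_iff.1 h1 x hx)))
  refine ⟨a 0, ?_⟩
  filter_upwards [e, self_mem_codiscreteWithin _] with z k hz
  rw [k]
  exact isOpen_ball.is_const_of_deriv_eq_zero (convex_ball _ _).isPreconnected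
    ha.differentiableOn h2 hz (mem_ball_self one_pos)

/-- The first two terms of the expansion at `c`. -/
def Ex (φ : ℂ → ℂ) (c : ℂ) (k : ℤ) (a b : ℂ) : Prop :=
  ∃ ψ, AnalyticAt ℂ ψ c ∧ ψ c = a ∧ deriv ψ c = b ∧ φ =ᶠ[𝓝[≠] c] fun z => (z - c) ^ k * ψ z

variable {φ χ : ℂ → ℂ} {c s t s' t' : ℂ} {k : ℤ}

lemma Ex.add (h : Ex φ c k s t) (h' : Ex χ c k s' t') : Ex (φ + χ) c k (s + s') (t + t') := by
  obtain ⟨ψ, a, rfl, rfl, e⟩ := h
  obtain ⟨ψ', a', rfl, rfl, e'⟩ := h'
  refine ⟨ψ + ψ', a.add a', rfl, deriv_add a.differentiableAt a'.differentiableAt, ?_⟩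
  filter_upwards [e, e'] with z k k'
  rw [Pi.add_apply, k, k', Pi.add_apply, mul_add]

lemma Ex.cmul (h : Ex φ c k s t) (d : ℂ) : Ex (fun z => d * φ z) c k (d * s) (d * t) := by
  obtain ⟨ψ, a, rfl, rfl, e⟩ := h
  refine ⟨fun z => d * ψ z, by fun_prop, rfl, deriv_const_mul d a.differentiableAt, ?_⟩
  filter_upwards [e] with z k
  rw [k, mul_left_comm]

lemma Ex.aux {ψ : ℂ → ℂ} (a : AnalyticAt ℂ ψ c) (k : ℤ) : ∀ᶠ z in 𝓝[≠] c,
    deriv (fun z => (z - c) ^ k * ψ z) z =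
      (z - c) ^ (k - 1) * (k * ψ z + (z - c) * deriv ψ z) := by
  filter_upwards [mem_nhdsWithin_of_mem_nhds a.eventually_analyticAt, self_mem_nhdsWithin]
    with z hz hz'
  have n : z - c ≠ 0 := sub_ne_zero.2 hz'
  have d := ((hasDerivAt_zpow k (z - c) (Or.inl n)).comp z ((hasDerivAt_id z).sub_const c)).mul
    (AnalyticAt.differentiableAt hz).hasDerivAt
  rw [show (fun z => (z - c) ^ k * ψ z) = ((fun x : ℂ => x ^ k) ∘ fun x => id x - c) * ψ from rfl,
    d.deriv, zpow_sub_one₀ n]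
  simp only [Function.comp, id]
  field_simp

lemma Ex.aux' {ψ : ℂ → ℂ} (a : AnalyticAt ℂ ψ c) : deriv (fun z => (z - c) * ψ z) c = ψ c := by
  rw [(((hasDerivAt_id' c).sub_const c).fun_mul a.differentiableAt.hasDerivAt).deriv]
  simp

lemma Ex.deriv (h : Ex φ c k s t) : Ex (deriv φ) c (k - 1) (k * s) ((k + 1) * t) := by
  obtain ⟨ψ, a, rfl, rfl, e⟩ := h
  have a' := a.deriv
  refine ⟨fun z => k * ψ z + (z - c) * _root_.deriv ψ z, by fun_prop, by simp, ?_,
    e.nhdsNE_deriv.trans (Ex.aux a k)⟩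
  rw [deriv_fun_add (by fun_prop) (by fun_prop), deriv_const_mul _ a.differentiableAt, Ex.aux' a']
  ring

lemma Ex.logDeriv (h : Ex φ c k s t) (hs : s ≠ 0) : Ex (logDeriv φ) c (-1) k (t / s) := by
  obtain ⟨ψ, a, rfl, rfl, e⟩ := h
  have a' : AnalyticAt ℂ (fun z => _root_.deriv ψ z / ψ z) c := a.deriv.div a hs
  refine ⟨fun z => k + (z - c) * (_root_.deriv ψ z / ψ z), by fun_prop, by simp, ?_,
    (logDeriv_congr_nhdsNE e).trans ?_⟩
  · rw [deriv_const_add, Ex.aux' a']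
  · filter_upwards [Ex.aux a k, self_mem_nhdsWithin,
      mem_nhdsWithin_of_mem_nhds (a.continuousAt.eventually_ne hs)] with z hz hz' h0
    have n : z - c ≠ 0 := sub_ne_zero.2 hz'
    have n' := zpow_ne_zero k n
    rw [logDeriv_apply, hz, zpow_sub_one₀ n, zpow_neg_one]
    field_simp

lemma Ex.one (c : ℂ) (n : ℕ) : Ex (fun _ => 1) c (-(n + 2 : ℕ)) 0 0 := by
  refine ⟨fun z => (z - c) * (z - c) ^ (n + 1), by fun_prop, by simp, ?_, ?_⟩
  · rw [Ex.aux' (by fun_prop)]
    simp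
  · filter_upwards [self_mem_nhdsWithin] with z hz
    rw [← pow_succ', zpow_neg, zpow_natCast, inv_mul_cancel₀ (pow_ne_zero _ (sub_ne_zero.2 hz))]

lemma Ex.of_order (h : MeromorphicAt φ c) (hk : meromorphicOrderAt φ c = k) :
    ∃ s t, s ≠ 0 ∧ Ex φ c k s t := by
  obtain ⟨ψ, a, h0, e⟩ := (meromorphicOrderAt_eq_int_iff h).1 hk
  exact ⟨_, _, h0, ψ, a, rfl, rfl, e⟩

lemma Ex.le_order (h : Ex φ c k s t) (n : ℕ) (hn : n ≤ 2) (h0 : 0 < n → s = 0)
    (h1 : 1 < n → t = 0) {j : ℤ} (hj : meromorphicOrderAt φ c = j) : k + n ≤ j := by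
  obtain ⟨ψ, a, rfl, rfl, e⟩ := h
  obtain ⟨g, hg, e'⟩ := (natCast_le_analyticOrderAt a).1
    ((natCast_le_analyticOrderAt_iff_iteratedDeriv_eq_zero a (n := n)).2 fun i hi => by
      obtain rfl | rfl : i = 0 ∨ i = 1 := by omega
      · simpa using h0 hi
      · simpa using h1 hi)
  have e2 : φ =ᶠ[𝓝[≠] c] (· - c) ^ (k + n) * g := by
    filter_upwards [e, mem_nhdsWithin_of_mem_nhds e', self_mem_nhdsWithin] with z k1 k2 k3
    rw [k1, k2, Pi.mul_apply, Pi.pow_apply, zpow_add₀ (sub_ne_zero.2 k3), zpow_natCast,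
      smul_eq_mul, mul_assoc]
  rw [meromorphicOrderAt_congr e2, meromorphicOrderAt_mul (by fun_prop) hg.meromorphicAt,
    meromorphicOrderAt_zpow_id_sub_const] at hj
  have : ((k + n : ℤ) : WithTop ℤ) ≤ j := hj ▸ le_add_of_nonneg_right hg.meromorphicOrderAt_nonneg
  exact_mod_cast this

lemma Ex.order_eq (h : Ex φ c k s t) (hs : s ≠ 0) (hm : MeromorphicAt φ c) :
    meromorphicOrderAt φ c = k := by
  obtain ⟨ψ, a, rfl, rfl, e⟩ := h
  exact (meromorphicOrderAt_eq_int_iff hm).2 ⟨ψ, a, hs, e⟩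

end Pool.Agent.Work.MP_6ac3f6_an
end

-- merged part: Pool.Agent.Work.MP_6ac3f6_an.Up5
section
/-!
# The auxiliary differential expression and the main estimate
-/

namespace Pool.Agent.Work.MP_6ac3f6_an

open Complex Metric Set Filter Topology Real MeasureTheory

/-- One minus the derivative. -/
noncomputable def pp (f : ℂ → ℂ) : ℂ → ℂ := (fun _ => 1) + fun z => -1 * deriv f z

/-- The first auxiliary function. -/
noncomputable def vv (f : ℂ → ℂ) : ℂ → ℂ := logDeriv (pp f)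

/-- The second auxiliary function. -/
noncomputable def WW (f : ℂ → ℂ) : ℂ → ℂ := logDeriv (vv f) + fun z => -1 / 2 * vv f z

/-- The third auxiliary function. -/
noncomputable def LA (f : ℂ → ℂ) : ℂ → ℂ :=
  logDeriv (WW f) + (fun z => 13 * logDeriv (vv f) z) + (fun z => 8 * logDeriv f z) +
    fun z => -10 * vv f z

/-- The main factor of the holomorphic expression. -/
noncomputable def GG (f : ℂ → ℂ) : ℂ → ℂ := WW f ^ 3 * LA f ^ 2 * (f⁻¹ * vv f) ^ 4

variable {f : ℂ → ℂ} {c : ℂ}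

lemma Ex.zero (h : AnalyticAt ℂ f c) : Ex f c 0 (f c) (_root_.deriv f c) :=
  ⟨f, h, rfl, rfl, Eventually.of_forall fun z => by simp⟩

lemma order_arith {n i j l : ℤ} {s t s' t' : ℂ} {m : ℤ} (hs : s ≠ 0) (hs' : s' ≠ 0)
    (hf : Ex f c n s t) (hp : Ex (pp f) c m s' t') (mv : MeromorphicAt (vv f) c)
    (mW : MeromorphicAt (WW f) c) (hi : meromorphicOrderAt (vv f) c = i)
    (hj : meromorphicOrderAt (WW f) c = j) (hl : meromorphicOrderAt (LA f) c = l)
    (h : n = 0 ∧ m = 0 ∨ n < 0 ∧ m = n - 1 ∧ t' / s' = (n + 1) / n * (t / s)) :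
    0 ≤ 3 * j + 2 * l + 4 * (-n + i) + 3 * i := by
  have ev : Ex (vv f) c (-1) m (t' / s') := hp.logDeriv hs'
  obtain ⟨a, b, ha, ev'⟩ := Ex.of_order mv hi
  obtain ⟨a', b', ha', eW'⟩ := Ex.of_order mW hj
  have eW : Ex (WW f) c (-1) _ _ := (ev'.logDeriv ha).add (ev.cmul (-1 / 2))
  have eL : Ex (LA f) c (-1) _ _ := (((eW'.logDeriv ha').add ((ev'.logDeriv ha).cmul 13)).add
    ((hf.logDeriv hs).cmul 8)).add (ev.cmul (-10))
  have j0 := eW.le_order 0 (by norm_num) (by simp) (by simp) hj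
  have l0 := eL.le_order 0 (by norm_num) (by simp) (by simp) hl
  have j1 := fun h => eW.le_order 1 (by norm_num) (fun _ => h) (by simp) hj
  have l1 := fun h : j + 13 * i + 8 * n + -10 * m = 0 =>
    eL.le_order 1 (by norm_num) (fun _ => by exact_mod_cast h) (by simp) hl
  rcases h with ⟨rfl, rfl⟩ | ⟨hn, rfl, ht⟩
  · have i0 := ev.le_order 1 (by norm_num) (by simp) (by simp) hi
    rcases eq_or_ne i 0 with rfl | hi0
    · have := j1 (by simp)
      omega
    · omega
  have hm : ((n - 1 : ℤ) : ℂ) ≠ 0 := by exact_mod_cast (by omega)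
  have e1 : i = -1 := by exact_mod_cast hi.symm.trans (ev.order_eq hm mv)
  have elv := ev.logDeriv hm
  have eW2 : Ex (WW f) c (-1) _ _ := elv.add (ev.cmul (-1 / 2))
  obtain rfl | rfl | h3 : n = -1 ∨ n = -2 ∨ n ≤ -3 := by omega
  · have := eW2.le_order 2 le_rfl (fun _ => by norm_num) (fun _ => by rw [ht]; norm_num) hj
    omega
  · have h2 : ((-1 : ℤ) : ℂ) + -1 / 2 * ((-2 - 1 : ℤ) : ℂ) ≠ 0 := by norm_num
    have e2 : j = -1 := by exact_mod_cast hj.symm.trans (eW2.order_eq h2 mW)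
    have eL2 : Ex (LA f) c (-1) _ _ := (((eW2.logDeriv h2).add (elv.cmul 13)).add
      ((hf.logDeriv hs).cmul 8)).add (ev.cmul (-10))
    have := eL2.le_order 2 le_rfl (fun _ => by norm_num) (fun _ => by rw [ht]; push_cast; ring) hl
    omega
  · omega

lemma order_GG (mf : MeromorphicAt f c) (mv : MeromorphicAt (vv f) c)
    (mW : MeromorphicAt (WW f) c) (mL : MeromorphicAt (LA f) c)
    (hc : 0 ≤ meromorphicOrderAt f c → AnalyticAt ℂ f c ∧ f c ≠ 0 ∧ deriv f c ≠ 1)
    (hv : meromorphicOrderAt (vv f) c ≠ ⊤) (hW : meromorphicOrderAt (WW f) c ≠ ⊤)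
    (hL : meromorphicOrderAt (LA f) c ≠ ⊤) : 0 ≤ meromorphicOrderAt (GG f * vv f ^ 3) c := by
  obtain ⟨i, hi⟩ := WithTop.ne_top_iff_exists.1 hv
  obtain ⟨j, hj⟩ := WithTop.ne_top_iff_exists.1 hW
  obtain ⟨l, hl⟩ := WithTop.ne_top_iff_exists.1 hL
  have key : ∃ n : ℤ, meromorphicOrderAt f c = n ∧ 0 ≤ 3 * j + 2 * l + 4 * (-n + i) + 3 * i := by
    by_cases h : 0 ≤ meromorphicOrderAt f c
    · obtain ⟨h1, h2, h3⟩ := hc h
      have h4 := h1.deriv
      have ap : AnalyticAt ℂ (pp f) c := by unfold pp; fun_prop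
      refine ⟨0, (Ex.zero h1).order_eq h2 mf, order_arith h2 ?_ (Ex.zero h1) (Ex.zero ap) mv mW
        hi.symm hj.symm hl.symm (Or.inl ⟨rfl, rfl⟩)⟩
      simpa [pp, ← sub_eq_add_neg, sub_eq_zero] using h3.symm
    · obtain ⟨n, hn⟩ := WithTop.ne_top_iff_exists.1 (not_le.1 h).ne_top
      have n0 : n < 0 := by rw [← hn] at h; exact_mod_cast not_le.1 h
      obtain ⟨s, t, hs, e⟩ := Ex.of_order mf hn.symm
      obtain ⟨k, hk⟩ : ∃ k : ℕ, -((k + 2 : ℕ) : ℤ) = n - 1 := ⟨(-n - 1).toNat, by omega⟩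
      have e1 := Ex.one c k
      rw [hk] at e1
      have n1 : (n : ℂ) ≠ 0 := by exact_mod_cast n0.ne
      refine ⟨n, hn.symm, order_arith hs (by simp [n1, hs]) e (e1.add (e.deriv.cmul (-1))) mv mW
        hi.symm hj.symm hl.symm (Or.inr ⟨n0, rfl, by field_simp; ring⟩)⟩
  obtain ⟨n, hn, h⟩ := key
  have m1 := mf.inv
  rw [GG, meromorphicOrderAt_mul (by fun_prop) (by fun_prop),
    meromorphicOrderAt_mul (by fun_prop) (by fun_prop),
    meromorphicOrderAt_mul (by fun_prop) (by fun_prop), meromorphicOrderAt_pow mW,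
    meromorphicOrderAt_pow mL, meromorphicOrderAt_pow (m1.mul mv), meromorphicOrderAt_pow mv,
    meromorphicOrderAt_mul m1 mv, meromorphicOrderAt_inv, hn, ← hi, ← hj, ← hl]
  have : ((0 : ℤ) : WithTop ℤ) ≤ (3 * j + 2 * l + 4 * (-n + i) + 3 * i : ℤ) := WithTop.coe_le_coe.2 h
  simpa using this

lemma LL_nonneg {r : ℝ} (h1 : 1 / 2 ≤ r) (h2 : r < 1) : 0 ≤ LL r :=
  neg_nonneg.2 (Real.log_nonpos (by linarith only [h2]) (by linarith only [h1, h2]))

lemma main_est {h v G : ℂ → ℂ} (hh : Mer h) (hv : Tame v 1) (hhv : Tame (h * v) 2)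
    (hG : Tame G 13) (v0 : ∀ᶠ z in DD, v z ≠ 0) (G0 : ∀ᶠ z in DD, G z ≠ 0)
    (ho : ∀ z ∈ ball (0 : ℂ) 1, 0 ≤ meromorphicOrderAt (G * v ^ 3) z) :
    Sm fun r => mk h 0 r - 19 / 3 * LL r := by
  have mH : Mer (G * v ^ 3) := hG.1.mul (hv.1.pow 3)
  obtain ⟨C, hC⟩ := jensen_lower mH ho
  refine (((hhv.2.add hv.2).add hG.2).add (Sm.const |C|)).mono fun r h1 h2 => ?_
  have k1 := hC r h1 h2 ∅ (by simp)
  have iv := int_log hv.1 h1 h2
  have iG := int_log hG.1 h1 h2
  have k2 : circleAverage (fun z => Real.log ‖(G * v ^ 3) z‖) 0 r ≤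
      circleAverage (fun z => Real.log ‖G z‖) 0 r +
        3 * circleAverage (fun z => Real.log ‖v z‖) 0 r := by
    rw [← smul_eq_mul (3 : ℝ), ← circleAverage_smul, ← circleAverage_add iG iv.const_smul]
    refine avg_le h1 h2 (int_log mH h1 h2) (iG.add iv.const_smul) ?_
    filter_upwards [v0, G0] with z a b
    rw [Pi.mul_apply, Pi.pow_apply, norm_mul, norm_pow, Real.log_mul (by simpa) (by simpa),
      Real.log_pow]
    simp
  have k3 := (avg_abs hG.1 h1 h2).2.trans (mk_zero_le hG.1 h1 h2 13)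
  have i1 := int_mk hhv.1 h1 h2 ((1 - r) ^ 2)
  have i2 := int_mk hv.1 h1 h2 ((1 - r) ^ 1)
  have ic := circleIntegrable_const (2 * LL r) 0 r
  have k4 : mk h 0 r ≤ mk (h * v) 2 r + mk v 1 r -
      circleAverage (fun z => Real.log ‖v z‖) 0 r + 2 * LL r := by
    unfold mk
    rw [← circleAverage_add i1 i2, ← circleAverage_sub (i1.add i2) iv,
      ← circleAverage_const (2 * LL r) 0 r, ← circleAverage_add ((i1.add i2).sub iv) ic]
    refine avg_le h1 h2 (int_mk hh h1 h2 _) (((i1.add i2).sub iv).add ic) ?_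
    filter_upwards [v0] with z a
    have y0 : 0 < 1 - r := by linarith only [h2]
    have n0 : 0 < ‖v z‖ := norm_pos_iff.2 a
    have L0 := LL_nonneg h1 h2
    have p1 : Real.log ((1 - r) ^ 1 * ‖v z‖) ≤ log⁺ ((1 - r) ^ 1 * ‖v z‖) := le_max_right _ _
    have p2 : Real.log ((1 - r) ^ 2 * ‖(h * v) z‖) ≤ log⁺ ((1 - r) ^ 2 * ‖(h * v) z‖) :=
      le_max_right _ _
    have p3 : 0 ≤ log⁺ ((1 - r) ^ 1 * ‖v z‖) := posLog_nonneg
    have p4 : 0 ≤ log⁺ ((1 - r) ^ 2 * ‖(h * v) z‖) := posLog_nonneg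
    rw [pow_one, Real.log_mul y0.ne' n0.ne'] at p1
    simp only [Pi.add_apply, Pi.sub_apply, pow_zero, one_mul, pow_one, LL] at *
    refine max_le (by linarith only [L0, p1, p4]) ?_
    rcases eq_or_ne (h z) 0 with h0 | h0
    · rw [h0, norm_zero, Real.log_zero]
      linarith only [L0, p1, p4]
    · rw [Pi.mul_apply, norm_mul, Real.log_mul (by positivity) (by simp [a, h0]),
        Real.log_mul (by simpa) n0.ne', Real.log_pow] at p2
      rw [Pi.mul_apply, norm_mul]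
      push_cast at p2
      linarith only [p2, p3]
  have k5 : 0 ≤ mk G 13 r := by
    have := circleAverage_mono (circleIntegrable_const 0 0 r) (int_mk hG.1 h1 h2 ((1 - r) ^ 13))
      fun z _ => posLog_nonneg
    rwa [circleAverage_const] at this
  rw [Finset.sum_empty] at k1
  push_cast at k3
  linarith only [k1, k2, k3, k4, k5, le_abs_self C, abs_nonneg C]

lemma Tame.est {h : ℂ → ℂ} (hh : Tame h 3) : Sm fun r => mk h 0 r - 19 / 3 * LL r :=
  hh.2.mono fun r h1 h2 => by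
    have := mk_zero_le hh.1 h1 h2 3
    push_cast at this
    linarith only [this, h1, h2, LL_nonneg h1 h2]

end Pool.Agent.Work.MP_6ac3f6_an
end

-- merged part: Pool.Agent.Work.MP_6ac3f6_an.Up6
section
/-!
# The upper bound
-/

namespace Pool.Agent.Work.MP_6ac3f6_an

open Complex Metric Set Filter Topology Real MeasureTheory

variable {f g : ℂ → ℂ}

lemma ld_mul (hg : Mer g) : ∀ᶠ z in DD, deriv g z = logDeriv g z * g z := by
  rcases hg.dich with h | h
  · filter_upwards [h] with z hz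
    rw [logDeriv_apply, div_mul_cancel₀ _ hz]
  · filter_upwards [h, DD_deriv (g := fun _ => 0) h] with z hz hz'
    rw [hz, hz', deriv_const, mul_zero]

lemma Mer.diff (hg : Mer g) : ∀ᶠ z in DD, DifferentiableAt ℂ g z := by
  filter_upwards [hg.analyticAt_mem_codiscreteWithin] with z hz using hz.differentiableAt

lemma good (mf : Mer f) (hc : ∀ z ∈ ball (0 : ℂ) 1, 0 ≤ meromorphicOrderAt f z →
    AnalyticAt ℂ f z ∧ f z ≠ 0 ∧ deriv f z ≠ 1) : ∀ᶠ z in DD, f z ≠ 0 ∧ pp f z ≠ 0 := by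
  filter_upwards [mf.analyticAt_mem_codiscreteWithin, self_mem_codiscreteWithin _] with z hz hz'
  obtain ⟨-, h2, h3⟩ := hc z hz' (AnalyticAt.meromorphicOrderAt_nonneg hz)
  exact ⟨h2, by simpa [pp, ← sub_eq_add_neg, sub_eq_zero] using h3.symm⟩

theorem est_of_quo (hf : Quo f) (hc : ∀ z ∈ ball (0 : ℂ) 1, 0 ≤ meromorphicOrderAt f z →
    AnalyticAt ℂ f z ∧ f z ≠ 0 ∧ deriv f z ≠ 1) : Sm fun r => mk f⁻¹ 0 r - 19 / 3 * LL r := by
  have mf := hf.mer
  have mh : Mer f⁻¹ := mf.inv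
  have gd := good mf hc
  have qp : Quo (pp f) := (Quo.const 1).add ((Quo.const (-1)).mul hf.deriv)
  have qv : Quo (vv f) := qp.logDeriv
  have qW : Quo (WW f) := qv.logDeriv.add ((Quo.const (-1 / 2)).mul qv)
  have te := hf.tame
  have tv : Tame (vv f) 1 := qp.tame
  have tW : Tame (WW f) 1 := qv.tame.add (tv.cmul _)
  have tL : Tame (LA f) 1 := ((qW.tame.add (qv.tame.cmul _)).add (te.cmul _)).add (tv.cmul _)
  have thv : Tame (f⁻¹ * vv f) 2 := by
    refine (((hf.deriv.tame.mul te).cmul (-1)).add (tv.mul te)).congr ?_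
    filter_upwards [gd, ld_mul hf.deriv.mer] with z ⟨h1, h2⟩ h3
    have h4 : deriv (pp f) z = -1 * deriv (deriv f) z := by
      rw [pp, show ((fun _ => 1) + fun z => -1 * deriv f z) = fun z => 1 + -1 * deriv f z from rfl,
        deriv_const_add, deriv_const_mul_field]
    have h5 : deriv f z = 1 - pp f z := by simp [pp]
    simp only [Pi.add_apply, Pi.mul_apply, Pi.inv_apply, vv, logDeriv_apply f,
      logDeriv_apply (pp f), h4, h3, h5]
    field_simp
    ring
  have red : Tame (f⁻¹ * pp f) 3 → Tame f⁻¹ 3 := fun h => by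
    refine (h.add (te.mono (by norm_num))).congr ?_
    filter_upwards [gd] with z ⟨h1, _⟩
    simp only [Pi.add_apply, Pi.mul_apply, Pi.inv_apply, logDeriv_apply, pp]
    field_simp
    ring
  rcases tv.1.dich with v0 | v0
  swap
  · obtain ⟨c, hp⟩ := const_of_ld qp.mer (gd.mono fun _ h => h.2) v0
    rcases eq_or_ne c 1 with rfl | c1
    · obtain ⟨d, hd⟩ := const_of_ld mf (gd.mono fun _ h => h.1) (hp.mono fun z hz => by
        rw [logDeriv_apply, show deriv f z = 0 by simpa [pp] using hz, zero_div])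
      exact (((Tame.const d⁻¹).mono (by norm_num)).congr (hd.mono fun z hz => by simp [hz])).est
    · refine (((te.cmul (1 - c)⁻¹).mono (by norm_num)).congr ?_).est
      filter_upwards [hp] with z hz
      have : 1 - c ≠ 0 := sub_ne_zero.2 c1.symm
      rw [logDeriv_apply, show deriv f z = 1 - c by simp [← hz, pp], Pi.inv_apply]
      field_simp
  rcases tW.1.dich with W0 | W0
  swap
  · obtain ⟨c, hp⟩ := const_of_ld (g := fun z => vv f z ^ 2 / pp f z) ((tv.1.pow 2).div qp.mer)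
      (by filter_upwards [v0, gd] with z a b using div_ne_zero (pow_ne_zero _ a) b.2) (by
        filter_upwards [v0, gd, W0, tv.1.diff, qp.mer.diff] with z a b e d1 d2
        rw [logDeriv_div (f := fun z => vv f z ^ 2) z (pow_ne_zero _ a) b.2 (d1.fun_pow 2) d2,
          logDeriv_fun_pow d1]
        simp only [WW, Pi.add_apply, vv] at e ⊢
        linear_combination 2 * e)
    refine (red (((thv.mul tv).cmul c⁻¹).congr ?_)).est
    filter_upwards [v0, gd, hp] with z a b e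
    have := b.2
    simp only [Pi.mul_apply, ← e]
    field_simp
  rcases tL.1.dich with L0 | L0
  swap
  · obtain ⟨c, hp⟩ := const_of_ld (g := fun z => WW f z * vv f z ^ 13 * f z ^ 8 / pp f z ^ 10)
      (((tW.1.mul (tv.1.pow 13)).mul (mf.pow 8)).div (qp.mer.pow 10))
      (by
        filter_upwards [v0, gd, W0] with z a b e
        simp [a, b.1, b.2, e]) (by
        filter_upwards [v0, gd, W0, L0, tv.1.diff, qp.mer.diff, tW.1.diff, mf.diff]
          with z a b w e d1 d2 d3 d4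
        rw [logDeriv_div z (by simp [a, b.1, w]) (by simp [b.2]) (by fun_prop) (by fun_prop),
          logDeriv_mul z (by simp [a, w]) (by simp [b.1]) (by fun_prop) (by fun_prop),
          logDeriv_mul z w (by simp [a]) d3 (by fun_prop), logDeriv_fun_pow d1,
          logDeriv_fun_pow d2, logDeriv_fun_pow d4]
        simp only [LA, Pi.add_apply, vv] at e ⊢
        linear_combination e)
    refine (red (Tame.root (n := 10) (mh.mul qp.mer) (by norm_num) ((((((thv.pow 2).mul tW).mul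
      (tv.pow 11)).cmul c⁻¹).mono (by norm_num)).congr ?_))).est
    filter_upwards [v0, gd, hp, W0] with z a b e w
    obtain ⟨b1, b2⟩ := b
    simp only [Pi.mul_apply, Pi.pow_apply, Pi.inv_apply, ← e]
    field_simp
  have tG := ((tW.pow 3).mul (tL.pow 2)).mul (thv.pow 4)
  refine main_est (G := GG f) mh tv thv tG v0 ?_
    fun z hz => order_GG (mf z hz) (tv.1 z hz) (tW.1 z hz) (tL.1 z hz) (hc z hz)
      (tv.1.nz_iff.1 v0 z hz) (tW.1.nz_iff.1 W0 z hz) (tL.1.nz_iff.1 L0 z hz)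
  filter_upwards [v0, gd, W0, L0] with z a b w l
  simp [GG, a, b.1, w, l]

lemma counting_neg (mf : Mer f) (h0 : ∀ z ∈ ball (0 : ℂ) 1, meromorphicOrderAt f z ≤ 0)
    {r : ℝ} (hr0 : 0 < r) (hr : r < 1) : counting f r =
      Real.log ‖meromorphicTrailingCoeffAt f 0‖ - circleAverage (fun z => Real.log ‖f z‖) 0 r := by
  classical
  have hsub : closedBall (0 : ℂ) |r| ⊆ ball 0 1 := by
    rw [abs_of_pos hr0]; exact closedBall_subset_ball hr
  have m := mf.mono_set hsub
  set D := MeromorphicOn.divisor f (closedBall (0 : ℂ) |r|) with hD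
  have hfin : (Function.support D).Finite := D.finiteSupport (isCompact_closedBall _ _)
  have hmult : ∀ u ∈ closedBall (0 : ℂ) |r|, (poleMult f u : ℝ) = -D u := by
    intro u hu
    have h1 : 0 ≤ -(meromorphicOrderAt f u).untop₀ := by
      obtain ⟨n, hn⟩ := WithTop.ne_top_iff_exists.1 (ne_top_of_le_ne_top (by simp) (h0 u (hsub hu)))
      have := h0 u (hsub hu)
      rw [← hn] at this ⊢
      simpa using this
    rw [hD, MeromorphicOn.divisor_apply m hu, poleMult]
    exact_mod_cast Int.toNat_of_nonneg h1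
  set s := hfin.toFinset.erase 0 with hs
  have hmem : ∀ u ∈ s, 0 < ‖u‖ ∧ ‖u‖ ≤ r := by
    intro u hu
    rw [Finset.mem_erase, Finite.mem_toFinset] at hu
    have := D.supportWithinDomain hu.2
    rw [mem_closedBall_zero_iff, abs_of_pos hr0] at this
    exact ⟨norm_pos_iff.2 hu.1, this⟩
  have hsup : ∀ u, D u ≠ 0 → u ∈ insert 0 s := fun u hu => by
    by_cases h : u = 0 <;> simp [hs, h, hu]
  have hn : ∀ t, 0 ≤ t → t ≤ r → nPoles f t =
      -D 0 + ∑ u ∈ s, (-D u : ℝ) * (if ‖u‖ ≤ t then 1 else 0) := by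
    intro t ht0 ht
    unfold nPoles
    rw [finsum_mem_def, finsum_eq_sum_of_support_subset (s := insert 0 s),
      Finset.sum_insert (Finset.notMem_erase _ _), indicator_of_mem (mem_closedBall_self ht0),
      hmult 0 (mem_closedBall_self (abs_nonneg r))]
    · congr 1
      refine Finset.sum_congr rfl (fun u _ => ?_)
      by_cases h : ‖u‖ ≤ t
      · rw [indicator_of_mem (mem_closedBall_zero_iff.2 h), if_pos h, mul_one,
          hmult u (mem_closedBall_zero_iff.2 (h.trans (ht.trans (le_abs_self r))))]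
      · rw [indicator_of_notMem (fun h' => h (mem_closedBall_zero_iff.1 h')), if_neg h, mul_zero]
    · intro u hu
      rw [support_indicator] at hu
      have h1 := hu.2
      rw [Function.mem_support, hmult u (closedBall_subset_closedBall
        (ht.trans (le_abs_self r)) hu.1)] at h1
      exact hsup u (by simpa using h1)
  have hn0 : nPoles f 0 = -D 0 := by
    rw [hn 0 le_rfl hr0.le, Finset.sum_eq_zero (fun u hu => by
      rw [if_neg (not_le.2 (hmem u hu).1), mul_zero]), add_zero]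
  rw [m.circleAverage_log_norm hr0.ne', ← hD,
    finsum_eq_sum_of_support_subset (s := insert 0 s) _ (fun u hu => hsup u fun h => hu (by simp [h])),
    Finset.sum_insert (Finset.notMem_erase _ _)]
  unfold counting
  rw [hn0, intervalIntegral.integral_congr (g := fun t => ∑ u ∈ s,
    (-D u : ℝ) * indicator (Ici ‖u‖) (fun t : ℝ => 1 / t) t), intervalIntegral.integral_finsetSum
      (fun u hu => (int_ind (hmem u hu).1 (hmem u hu).2).1.const_mul _)]
  · rw [Finset.sum_congr rfl (g := fun u => -((D u : ℝ) * Real.log (r * ‖0 - u‖⁻¹))) fun u hu => by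
      rw [intervalIntegral.integral_const_mul, (int_ind (hmem u hu).1 (hmem u hu).2).2,
        div_eq_mul_inv, zero_sub, norm_neg, neg_mul], Finset.sum_neg_distrib]
    simp only [sub_self, norm_zero, inv_zero, mul_zero, Real.log_zero]
    ring
  · intro t ht
    rw [uIcc_of_le hr0.le] at ht
    simp only [hn t ht.1 ht.2, add_sub_cancel_left, Finset.sum_div]
    refine Finset.sum_congr rfl (fun u _ => ?_)
    by_cases h : ‖u‖ ≤ t
    · rw [if_pos h, indicator_of_mem (show t ∈ Ici ‖u‖ from h), mul_div_assoc]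
    · rw [if_neg h, indicator_of_notMem (show t ∉ Ici ‖u‖ from h)]; simp

lemma char_inv (mf : Mer f) (h0 : ∀ z ∈ ball (0 : ℂ) 1, meromorphicOrderAt f z ≤ 0)
    {r : ℝ} (h1 : 1 / 2 ≤ r) (h2 : r < 1) : prox f r + counting f r =
      mk f⁻¹ 0 r + Real.log ‖meromorphicTrailingCoeffAt f 0‖ := by
  have e1 : prox f r = mk f 0 r := by simp [prox, mk, circleAverage, circleMap, posLog]
  have e2 : circleAverage (fun z => Real.log ‖f z‖) 0 r = mk f 0 r - mk f⁻¹ 0 r := by
    unfold mk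
    rw [← circleAverage_fun_sub (int_mk mf h1 h2 _) (int_mk mf.inv h1 h2 _)]
    simp [posLog_sub_posLog_inv]
  rw [e1, counting_neg mf h0 (by linarith only [h1, h2]) h2, e2]
  ring

theorem alpha_le (hf : InClass f) : alpha f ≤ ((19 / 3 : ℝ) : EReal) := by
  obtain ⟨mf, ha, hc⟩ := hf
  have h0 : ∀ z ∈ ball (0 : ℂ) 1, meromorphicOrderAt f z ≤ 0 := fun z hz => by
    rcases le_total 0 (meromorphicOrderAt f z) with h | h
    · obtain ⟨h1, h2, -⟩ := hc z hz h
      exact ((Ex.zero h1).order_eq h2 (mf z hz)).le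
    · exact h
  have L0 : ∀ᶠ r in FF, 0 < LL r := LL_top.eventually_gt_atTop 0
  set c := Real.log ‖meromorphicTrailingCoeffAt f 0‖
  obtain ⟨C, hC, -⟩ := EReal.lt_iff_exists_real_btwn.1 ha
  have bh : Bd f⁻¹ := ⟨mf.inv, C + 1, by
    filter_upwards [eventually_lt_of_limsup_lt hC, L0, ev_rng, Sm.const (-c) 1 one_pos]
      with r a b d e
    rw [EReal.coe_lt_coe_iff, char_inv mf h0 d.1 d.2] at a
    linarith only [e, b, a, (div_lt_iff₀ b).1 a]⟩
  obtain ⟨a, an, e⟩ := exists_nf bh.1 fun z hz => by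
    obtain ⟨n, hn⟩ := WithTop.ne_top_iff_exists.1 (ne_top_of_le_ne_top (by simp) (h0 z hz))
    have := h0 z hz
    rw [meromorphicOrderAt_inv]
    rw [← hn] at this ⊢
    exact_mod_cast neg_nonneg.2 (show n ≤ 0 by exact_mod_cast this)
  have q : Quo f := ⟨_, a, Gr.const 1, ⟨an, bh.congr e⟩, by
    filter_upwards [e, good mf hc] with z k1 k2
    rw [← k1]
    exact inv_ne_zero k2.1, e.mono fun z k => by simp [← k]⟩
  refine le_of_forall_gt_imp_ge_of_dense fun x hx => ?_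
  obtain ⟨y, hy, hy'⟩ := EReal.lt_iff_exists_real_btwn.1 hx
  rw [EReal.coe_lt_coe_iff] at hy
  refine (limsup_le_of_le (by isBoundedDefault) ?_).trans hy'.le
  filter_upwards [((est_of_quo q hc).add (Sm.const c)) (y - 19 / 3) (by linarith only [hy]), L0, ev_rng]
    with r k1 k2 k3
  rw [EReal.coe_le_coe_iff, char_inv mf h0 k3.1 k3.2]
  exact (div_le_iff₀ k2).2 (by linarith only [k1])

end Pool.Agent.Work.MP_6ac3f6_an
end
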